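import Mathlib

/-!
Canonical paths in a finite box: two parts of a product set that are not adjacent (no element
of the second part is obtained from an element of the first part by changing one coordinate) are
separated by many bad elements.
-/

namespace Pool.Agent.Lib.MP_f1849d_co

open Finset

/-- first `k` coordinates from `v`, the others from `u` -/
def mixCoord {d : ℕ} {V : Type*} (k : ℕ) (u v : Fin d → V) : Fin d → V :=
  fun q => if (q : ℕ) < k then v q else u q

theorem mixCoord_zero {d : ℕ} {V : Type*} (u v : Fin d → V) : mixCoord 0 u v = u := by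
  funext q; simp [mixCoord]

theorem mixCoord_self {d : ℕ} {V : Type*} (u v : Fin d → V) : mixCoord d u v = v := by
  funext q; simp [mixCoord, q.isLt]

theorem mixCoord_succ {d : ℕ} {V : Type*} (k : ℕ) (hk : k < d) (u v : Fin d → V) :
    mixCoord (k + 1) u v = Function.update (mixCoord k u v) ⟨k, hk⟩ (v ⟨k, hk⟩) := by
  funext q
  by_cases hq : q = ⟨k, hk⟩
  · subst hq; simp [mixCoord]
  · rw [Function.update_of_ne hq]
    have hne : (q : ℕ) ≠ k := fun h => hq (Fin.ext h)
    unfold mixCoord
    by_cases h1 : (q : ℕ) < k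
    · have h2 : (q : ℕ) < k + 1 := by omega
      simp [h1, h2]
    · have h2 : ¬ (q : ℕ) < k + 1 := by omega
      simp [h1, h2]

theorem mixCoord_mem {d : ℕ} {V : Type*} [DecidableEq V] (X : Fin d → Finset V) (k : ℕ)
    {u v : Fin d → V} (hu : u ∈ Fintype.piFinset X) (hv : v ∈ Fintype.piFinset X) :
    mixCoord k u v ∈ Fintype.piFinset X := by
  rw [Fintype.mem_piFinset] at *
  intro q
  unfold mixCoord
  split_ifs
  · exact hv q
  · exact hu q

theorem box_two_sides {d : ℕ} {V : Type*} [DecidableEq V] (X : Fin d → Finset V)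
    (Gp Gm Bad : Finset (Fin d → V))
    (hGp : Gp ⊆ Fintype.piFinset X) (hGm : Gm ⊆ Fintype.piFinset X)
    (hdisj : Disjoint Gp Gm)
    (hcov : ∀ z ∈ Fintype.piFinset X, z ∈ Gp ∨ z ∈ Gm ∨ z ∈ Bad)
    (hadj : ∀ z ∈ Gp, ∀ q v, Function.update z q v ∉ Gm) :
    Gp.card * Gm.card ≤ d * (Bad.card * (Fintype.piFinset X).card) := by
  classical
  -- the step at which the path leaves `Gp`
  have key : ∀ p ∈ Gp ×ˢ Gm, ∃ k : Fin d, mixCoord (k + 1) p.1 p.2 ∈ Bad := by
    rintro ⟨u, v⟩ hp
    rw [mem_product] at hp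
    obtain ⟨hu, hv⟩ := hp
    simp only at hu hv
    have hex : ∃ k : ℕ, mixCoord k u v ∉ Gp := by
      refine ⟨d, ?_⟩
      rw [mixCoord_self]
      exact fun h => (Finset.disjoint_left.mp hdisj) h hv
    let k := Nat.find hex
    have hk : mixCoord k u v ∉ Gp := Nat.find_spec hex
    have hk0 : k ≠ 0 := by
      intro h0
      rw [h0, mixCoord_zero] at hk
      exact hk hu
    have hkd : k ≤ d := by
      apply Nat.find_min'
      rw [mixCoord_self]
      exact fun h => (Finset.disjoint_left.mp hdisj) h hv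
    obtain ⟨j, hj⟩ := Nat.exists_eq_succ_of_ne_zero hk0
    have hjd : j < d := by omega
    have hjG : mixCoord j u v ∈ Gp := by
      by_contra hcon
      have := Nat.find_min hex (m := j) (by change j < k; omega)
      exact this hcon
    refine ⟨⟨j, hjd⟩, ?_⟩
    have hmem : mixCoord (j + 1) u v ∈ Fintype.piFinset X :=
      mixCoord_mem X _ (hGp hu) (hGm hv)
    have hk' : mixCoord (j + 1) u v ∉ Gp := by
      have : k = j + 1 := hj
      rw [this] at hk; exact hk
    have hm' : mixCoord (j + 1) u v ∉ Gm := by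
      rw [mixCoord_succ j hjd]
      exact hadj _ hjG _ _
    rcases hcov _ hmem with h | h | h
    · exact absurd h hk'
    · exact absurd h hm'
    · exact h
  rcases Nat.eq_zero_or_pos d with hd0 | hdpos
  · subst hd0
    have hemp : Gp ×ˢ Gm = ∅ := by
      rw [Finset.eq_empty_iff_forall_notMem]
      intro p hp
      obtain ⟨k, _⟩ := key p hp
      exact k.elim0
    have : (Gp ×ˢ Gm).card = 0 := by rw [hemp]; rfl
    rw [Finset.card_product] at this
    omega
  have : Nonempty (Fin d) := ⟨⟨0, hdpos⟩⟩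
  choose! kk hkk using key
  -- the injection
  let f : (Fin d → V) × (Fin d → V) → Fin d × ((Fin d → V) × (Fin d → V)) := fun p =>
    (kk p, (mixCoord (kk p + 1) p.1 p.2, mixCoord (kk p + 1) p.2 p.1))
  have hf : Set.InjOn f (Gp ×ˢ Gm : Finset _) := by
    rintro ⟨u, v⟩ _ ⟨u', v'⟩ _ h
    simp only [f, Prod.mk.injEq] at h
    obtain ⟨h1, h2, h3⟩ := h
    rw [← h1] at h2 h3
    have e : ∀ q, u q = u' q ∧ v q = v' q := by
      intro q
      have h2q := congrFun h2 q
      have h3q := congrFun h3 q
      unfold mixCoord at h2q h3q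
      split_ifs at h2q h3q
      · exact ⟨h3q, h2q⟩
      · exact ⟨h2q, h3q⟩
    ext q
    · exact (e q).1
    · exact (e q).2
  have hmaps : ∀ p ∈ Gp ×ˢ Gm, f p ∈ (Finset.univ : Finset (Fin d)) ×ˢ
      (Bad ×ˢ Fintype.piFinset X) := by
    rintro ⟨u, v⟩ hp
    have hb := hkk _ hp
    rw [mem_product] at hp
    simp only [f, mem_product, mem_univ, true_and]
    exact ⟨hb, mixCoord_mem X _ (hGm hp.2) (hGp hp.1)⟩
  have := Finset.card_le_card_of_injOn f hmaps hf
  simpa [Finset.card_product] using this

/-- the smaller of the two sides has at most `4 d |Bad|` elements (`d ≥ 1`) -/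
theorem box_minority {d : ℕ} (hd : 1 ≤ d) {V : Type*} [DecidableEq V] (X : Fin d → Finset V)
    (Gp Gm Bad : Finset (Fin d → V))
    (hGp : Gp ⊆ Fintype.piFinset X) (hGm : Gm ⊆ Fintype.piFinset X)
    (hdisj : Disjoint Gp Gm)
    (hcov : ∀ z ∈ Fintype.piFinset X, z ∈ Gp ∨ z ∈ Gm ∨ z ∈ Bad)
    (hadj : ∀ z ∈ Gp, ∀ q v, Function.update z q v ∉ Gm) :
    Gp.card ≤ 4 * d * Bad.card ∨ Gm.card ≤ 4 * d * Bad.card := by
  classical
  set N := (Fintype.piFinset X).card with hN
  have h1 := box_two_sides X Gp Gm Bad hGp hGm hdisj hcov hadj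
  have h2 : N ≤ Gp.card + Gm.card + Bad.card := by
    have hsub : Fintype.piFinset X ⊆ Gp ∪ Gm ∪ Bad := by
      intro z hz
      rcases hcov z hz with h | h | h
      · simp [h]
      · simp [h]
      · simp [h]
    calc N ≤ (Gp ∪ Gm ∪ Bad).card := Finset.card_le_card hsub
      _ ≤ (Gp ∪ Gm).card + Bad.card := Finset.card_union_le _ _
      _ ≤ Gp.card + Gm.card + Bad.card := by
          have := Finset.card_union_le Gp Gm
          omega
  have hGpN : Gp.card ≤ N := Finset.card_le_card hGp
  have hGmN : Gm.card ≤ N := Finset.card_le_card hGm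
  rw [← hN] at h1
  by_contra hcon
  push Not at hcon
  obtain ⟨h3, h4⟩ := hcon
  -- both sides are larger than `4 d |Bad|`
  rcases Nat.eq_zero_or_pos Bad.card with hb | hb
  · rw [hb] at h1 h3 h4
    simp only [mul_zero, zero_mul, Nat.le_zero, Nat.mul_eq_zero] at h1 h3 h4
    omega
  · rcases Nat.lt_or_ge (2 * Bad.card) N with hlt | hge
    · -- the larger side has at least N/4 elements
      rcases Nat.le_total Gp.card Gm.card with hle | hle
      · have h5 : N ≤ 4 * Gm.card := by omega
        have h6 : Gp.card * N ≤ 4 * (d * (Bad.card * N)) := by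
          calc Gp.card * N ≤ Gp.card * (4 * Gm.card) := Nat.mul_le_mul_left _ h5
            _ = 4 * (Gp.card * Gm.card) := by ring
            _ ≤ 4 * (d * (Bad.card * N)) := Nat.mul_le_mul_left _ h1
        have h7 : Gp.card * N ≤ (4 * d * Bad.card) * N := by
          calc Gp.card * N ≤ 4 * (d * (Bad.card * N)) := h6
            _ = (4 * d * Bad.card) * N := by ring
        have hNpos : 0 < N := by omega
        have := Nat.le_of_mul_le_mul_right h7 hNpos
        omega
      · have h5 : N ≤ 4 * Gp.card := by omega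
        have h7 : Gm.card * N ≤ (4 * d * Bad.card) * N := by
          calc Gm.card * N ≤ Gm.card * (4 * Gp.card) := Nat.mul_le_mul_left _ h5
            _ = 4 * (Gp.card * Gm.card) := by ring
            _ ≤ 4 * (d * (Bad.card * N)) := Nat.mul_le_mul_left _ h1
            _ = (4 * d * Bad.card) * N := by ring
        have hNpos : 0 < N := by omega
        have := Nat.le_of_mul_le_mul_right h7 hNpos
        omega
    · have : 4 * d * Bad.card ≥ 4 * Bad.card := by nlinarith
      omega

end Pool.Agent.Lib.MP_f1849d_co
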