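import Mathlib

/-!
Generic robust centre point of a finite set in general position.
-/

namespace Pool.Agent.Lib.MP_f1849d_co

open Finset Module

variable {V : Type*} [NormedAddCommGroup V] [NormedSpace ℝ V]

/-- general position: any `dim + 1` points are affinely independent -/
def GenPos (P : Finset V) : Prop :=
  ∀ s : Finset V, s ⊆ P → s.card = finrank ℝ V + 1 →
    AffineIndependent ℝ (Subtype.val : {x // x ∈ s} → V)

theorem GenPos.mono {P Q : Finset V} (hP : GenPos P) (h : Q ⊆ P) : GenPos Q :=
  fun s hs => hP s (hs.trans h)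

/-- in general position all small subsets are affinely independent, if `P` is not too small -/
theorem GenPos.affineIndependent {P : Finset V} (hP : GenPos P)
    (hcard : finrank ℝ V + 1 ≤ P.card) (s : Finset V) (hs : s ⊆ P)
    (hsc : s.card ≤ finrank ℝ V + 1) :
    AffineIndependent ℝ (Subtype.val : {x // x ∈ s} → V) := by
  obtain ⟨t, hst, htP, htc⟩ := Finset.exists_subsuperset_card_eq hs hsc hcard
  exact (hP t htP htc).mono hst

variable [FiniteDimensional ℝ V]

omit [FiniteDimensional ℝ V] in
theorem dense_compl_affineSubspace (A : AffineSubspace ℝ V) (hA : A ≠ ⊤) :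
    Dense ((A : Set V)ᶜ) := by
  rw [← interior_eq_empty_iff_dense_compl]
  by_contra h
  have h' : (interior (A : Set V)).Nonempty := Set.nonempty_iff_ne_empty.mpr h
  have h1 : affineSpan ℝ (A : Set V) = ⊤ := affineSpan_eq_top_of_nonempty_interior (by
    rwa [A.convex.convexHull_eq])
  rw [AffineSubspace.affineSpan_coe] at h1
  exact hA h1

theorem isClosed_affineSubspace (A : AffineSubspace ℝ V) : IsClosed (A : Set V) :=
  A.closed_of_finiteDimensional

omit [FiniteDimensional ℝ V] in
theorem affineSpan_ne_top_of_card_le (s : Finset V) (hs : s.card ≤ finrank ℝ V) :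
    affineSpan ℝ (s : Set V) ≠ ⊤ := by
  classical
  intro htop
  rcases s.eq_empty_or_nonempty with h | h
  · subst h
    rw [Finset.coe_empty, AffineSubspace.span_empty] at htop
    exact AffineSubspace.bot_ne_top ℝ V V htop
  · have h1 : vectorSpan ℝ (s : Set V) = ⊤ := by
      rw [← direction_affineSpan, htop, AffineSubspace.direction_top]
    have h2 := finrank_vectorSpan_image_finset_le (k := ℝ) (p := (id : V → V)) (s := s)
      (n := s.card - 1) (by have := Finset.card_pos.mpr h; omega)
    rw [Finset.image_id, h1, finrank_top] at h2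
    have := Finset.card_pos.mpr h
    omega

/-- a nonempty open set contains a point outside all the affine spans of small subsets -/
theorem exists_generic_point (P : Finset V) (U : Set V) (hU : IsOpen U) (hUne : U.Nonempty) :
    ∃ o ∈ U, ∀ s : Finset V, s ⊆ P → s.card ≤ finrank ℝ V → o ∉ affineSpan ℝ (s : Set V) := by
  classical
  set 𝓢 : Set (Finset V) := {s | s ⊆ P ∧ s.card ≤ finrank ℝ V} with h𝓢
  have hfin : 𝓢.Finite := by
    apply (Finset.finite_toSet P.powerset).subset
    intro s hs
    exact Finset.mem_coe.mpr (Finset.mem_powerset.mpr hs.1)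
  have hdense : Dense (⋂ s ∈ 𝓢, ((affineSpan ℝ (s : Set V) : Set V))ᶜ) := by
    have : CompleteSpace V := FiniteDimensional.complete ℝ V
    apply dense_biInter_of_isOpen
    · intro s _
      exact (isClosed_affineSubspace _).isOpen_compl
    · exact hfin.countable
    · intro s hs
      exact dense_compl_affineSubspace _ (affineSpan_ne_top_of_card_le s hs.2)
  obtain ⟨o, hoU, ho⟩ := hdense.inter_open_nonempty U hU hUne
  refine ⟨o, hoU, fun s hs hsc => ?_⟩
  rw [Set.mem_iInter₂] at ho
  exact ho s ⟨hs, hsc⟩

/-- the convex hull of many points in general position has nonempty interior -/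
theorem interior_convexHull_nonempty_of_genPos (Q : Finset V) (hQ : GenPos Q)
    (hcard : finrank ℝ V + 1 ≤ Q.card) : (interior (convexHull ℝ (Q : Set V))).Nonempty := by
  classical
  obtain ⟨s, hsQ, hsc⟩ := Finset.exists_subset_card_eq hcard
  have hai := hQ s hsQ hsc
  have htop : affineSpan ℝ (s : Set V) = ⊤ := by
    have := hai.affineSpan_eq_top_iff_card_eq_finrank_add_one
    rw [Subtype.range_coe_subtype] at this
    simp only [Fintype.card_coe, Finset.setOfPred_mem] at this
    exact this.mpr hsc
  have h2 : affineSpan ℝ (Q : Set V) = ⊤ := by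
    rw [eq_top_iff, ← htop]
    exact affineSpan_mono ℝ (by exact_mod_cast hsQ)
  exact interior_convexHull_nonempty_iff_affineSpan_eq_top.mpr h2

/-- **Generic robust centre point.** -/
theorem exists_center [DecidableEq V] (P Q : Finset V) (hQ : GenPos Q)
    (hcard : 2 * (finrank ℝ V + 1) ≤ Q.card) :
    ∃ o : V, (∀ Q' : Finset V, Q' ⊆ Q → 2 * (finrank ℝ V + 1) * (Q \ Q').card ≤ Q.card →
        o ∈ interior (convexHull ℝ (Q' : Set V))) ∧
      ∀ s : Finset V, s ⊆ P → s.card ≤ finrank ℝ V → o ∉ affineSpan ℝ (s : Set V) := by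
  classical
  set D := finrank ℝ V + 1 with hD
  set 𝓢 : Finset (Finset V) := Q.powerset.filter (fun Q' => 2 * D * (Q \ Q').card ≤ Q.card)
    with h𝓢
  have hne : (⋂ Q' ∈ 𝓢, interior (convexHull ℝ ((Q' : Finset V) : Set V))).Nonempty := by
    apply Convex.helly_theorem' (𝕜 := ℝ)
    · intro Q' _
      exact (convex_convexHull ℝ _).interior
    · intro I hI hIc
      -- the intersection of the members of `I`
      set Q'' : Finset V := Q.filter (fun v => ∀ Q' ∈ I, v ∈ Q') with hQ''
      have hsub : Q \ Q'' ⊆ I.biUnion (fun Q' => Q \ Q') := by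
        intro v hv
        rw [mem_sdiff, hQ'', mem_filter] at hv
        rw [mem_biUnion]
        have : ¬ ∀ Q' ∈ I, v ∈ Q' := fun h => hv.2 ⟨hv.1, h⟩
        push Not at this
        obtain ⟨Q', hQ'I, hvQ'⟩ := this
        exact ⟨Q', hQ'I, mem_sdiff.mpr ⟨hv.1, hvQ'⟩⟩
      have h1 : 2 * D * (Q \ Q'').card ≤ D * Q.card := by
        calc 2 * D * (Q \ Q'').card ≤ 2 * D * ∑ Q' ∈ I, (Q \ Q').card :=
              Nat.mul_le_mul_left _ ((Finset.card_le_card hsub).trans Finset.card_biUnion_le)
          _ = ∑ Q' ∈ I, 2 * D * (Q \ Q').card := by rw [Finset.mul_sum]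
          _ ≤ ∑ Q' ∈ I, Q.card := by
              apply Finset.sum_le_sum
              intro Q' hQ'
              exact (mem_filter.mp (hI hQ')).2
          _ = I.card * Q.card := by rw [Finset.sum_const, smul_eq_mul]
          _ ≤ D * Q.card := Nat.mul_le_mul_right _ hIc
      have h2 : 2 * (Q \ Q'').card ≤ Q.card := by
        have hDpos : 0 < D := by omega
        apply Nat.le_of_mul_le_mul_left _ hDpos
        calc D * (2 * (Q \ Q'').card) = 2 * D * (Q \ Q'').card := by ring
          _ ≤ D * Q.card := h1
      have h3 : (Q \ Q'').card + Q''.card = Q.card :=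
        Finset.card_sdiff_add_card_eq_card (Finset.filter_subset _ _)
      have h4 : D ≤ Q''.card := by omega
      obtain ⟨v, hv⟩ := interior_convexHull_nonempty_of_genPos Q''
        (hQ.mono (Finset.filter_subset _ _)) h4
      refine ⟨v, ?_⟩
      rw [Set.mem_iInter₂]
      intro Q' hQ'
      refine interior_mono (convexHull_mono ?_) hv
      intro u hu
      rw [Finset.mem_coe, hQ'', mem_filter] at hu
      exact_mod_cast hu.2 Q' hQ'
  have hopen : IsOpen (⋂ Q' ∈ 𝓢, interior (convexHull ℝ ((Q' : Finset V) : Set V))) := by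
    apply isOpen_biInter_finset
    intro Q' _
    exact isOpen_interior
  obtain ⟨o, ho, hgen⟩ := exists_generic_point P _ hopen hne
  refine ⟨o, ?_, hgen⟩
  intro Q' hQ' hcardQ'
  rw [Set.mem_iInter₂] at ho
  exact ho Q' (by rw [h𝓢, mem_filter, mem_powerset]; exact ⟨hQ', hcardQ'⟩)

omit [FiniteDimensional ℝ V] in
/-- every open half-space with a robust centre point on its boundary contains a definite
proportion of the set -/
theorem center_halfspace [DecidableEq V] (Q : Finset V) (o : V)
    (ho : ∀ Q' : Finset V, Q' ⊆ Q → 2 * (finrank ℝ V + 1) * (Q \ Q').card ≤ Q.card →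
        o ∈ interior (convexHull ℝ (Q' : Set V)))
    (ν : V →L[ℝ] ℝ) (hν : ν ≠ 0) :
    Q.card < 2 * (finrank ℝ V + 1) * (Q.filter (fun v => ν o < ν v)).card := by
  classical
  by_contra hcon
  push Not at hcon
  set Q' := Q.filter (fun v => ν v ≤ ν o) with hQ'
  have h1 : Q \ Q' = Q.filter (fun v => ν o < ν v) := by
    ext v
    simp only [hQ', mem_sdiff, mem_filter, not_and, not_le]
    constructor
    · rintro ⟨h1, h2⟩; exact ⟨h1, h2 h1⟩
    · rintro ⟨h1, h2⟩; exact ⟨h1, fun _ => h2⟩
  have h2 := ho Q' (Finset.filter_subset _ _) (by rw [h1]; exact hcon)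
  -- the functional is not constant near `o`
  obtain ⟨u, hu⟩ : ∃ u, 0 < ν u := by
    obtain ⟨u, hu⟩ : ∃ u, ν u ≠ 0 := by
      by_contra h
      push Not at h
      exact hν (ContinuousLinearMap.ext h)
    rcases lt_or_gt_of_ne hu with h | h
    · exact ⟨-u, by rw [map_neg]; linarith⟩
    · exact ⟨u, h⟩
  have hsub : convexHull ℝ (Q' : Set V) ⊆ {v | ν v ≤ ν o} := by
    apply convexHull_min
    · intro v hv
      rw [Finset.mem_coe, hQ', mem_filter] at hv
      exact hv.2
    · exact convex_halfSpace_le (ν.toLinearMap.isLinear) _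
  have hcont : Filter.Tendsto (fun t : ℝ => o + t • u) (nhdsWithin 0 (Set.Ioi 0)) (nhds o) := by
    have : Filter.Tendsto (fun t : ℝ => o + t • u) (nhds 0) (nhds (o + (0 : ℝ) • u)) :=
      (continuous_const.add (continuous_id.smul continuous_const)).tendsto 0
    rw [zero_smul, add_zero] at this
    exact this.mono_left nhdsWithin_le_nhds
  have hev : ∀ᶠ t in nhdsWithin (0 : ℝ) (Set.Ioi 0),
      o + t • u ∈ interior (convexHull ℝ (Q' : Set V)) :=
    hcont.eventually (isOpen_interior.mem_nhds h2)
  obtain ⟨t, ht1, ht2⟩ := (hev.and self_mem_nhdsWithin).exists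
  have := hsub (interior_subset ht1)
  simp only [Set.mem_ofPred_eq, map_add, map_smul, smul_eq_mul] at this
  have hpos : 0 < t * ν u := mul_pos ht2 hu
  linarith

end Pool.Agent.Lib.MP_f1849d_co
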