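import Mathlib

/-!
Decoupling of a determinant: if `∑ q ∈ A, y i q = 0` for all `i ∈ J`, then the sum over all
surjections `r : A → J` of `f (y (r q) q)_q` vanishes for each alternating `f`.
-/

namespace Pool.Agent.Lib.MP_f1849d_co

open Finset

theorem sum_signed_superset {ι : Type*} [DecidableEq ι] (J R : Finset ι) (hR : R ⊆ J) :
    ∑ B ∈ J.powerset with R ⊆ B, (-1 : ℤ) ^ B.card = if R = J then (-1) ^ J.card else 0 := by
  have h1 : ∑ B ∈ J.powerset with R ⊆ B, (-1 : ℤ) ^ B.card
      = ∑ C ∈ (J \ R).powerset, (-1 : ℤ) ^ (R.card + C.card) := by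
    refine Finset.sum_bij' (fun B _ => B \ R) (fun C _ => R ∪ C) ?_ ?_ ?_ ?_ ?_
    · intro B hB
      simp only [mem_filter, mem_powerset] at hB ⊢
      exact Finset.sdiff_subset_sdiff hB.1 (Finset.Subset.refl _)
    · intro C hC
      simp only [mem_filter, mem_powerset] at hC ⊢
      exact ⟨Finset.union_subset hR (hC.trans Finset.sdiff_subset), Finset.subset_union_left⟩
    · intro B hB
      simp only [mem_filter, mem_powerset] at hB
      exact Finset.union_sdiff_of_subset hB.2
    · intro C hC
      simp only [mem_powerset] at hC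
      rw [Finset.union_sdiff_cancel_left]
      exact (Finset.disjoint_of_subset_left hC Finset.sdiff_disjoint).symm
    · intro B hB
      simp only [mem_filter, mem_powerset] at hB
      congr 1
      have := Finset.card_sdiff_add_card_eq_card hB.2
      omega
  rw [h1]
  simp_rw [pow_add]
  rw [← Finset.mul_sum, Finset.sum_powerset_neg_one_pow_card]
  by_cases h : R = J
  · subst h; simp
  · have : J \ R ≠ ∅ := by
      intro h2
      rw [Finset.sdiff_eq_empty_iff_subset] at h2
      exact h (Finset.Subset.antisymm hR h2)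
    rw [if_neg this, if_neg h, mul_zero]

variable {d : ℕ} {V : Type*} [AddCommGroup V] [Module ℝ V]

/-- the index boxes -/
def idxBox {ι : Type*} (A : Finset (Fin d)) (B : Finset ι) (i0 : ι) (q : Fin d) : Finset ι :=
  if q ∈ A then B else {i0}

theorem decoupled_sum {ι : Type*} [DecidableEq ι] (f : V [⋀^Fin d]→ₗ[ℝ] ℝ)
    (A : Finset (Fin d)) (hA : A.Nonempty) (J : Finset ι) (y : ι → Fin d → V)
    (hy : ∀ i ∈ J, ∑ q ∈ A, y i q = 0) (z : Fin d → V) (i0 : ι) :
    ∑ r ∈ Fintype.piFinset (idxBox A J i0) with A.image r = J,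
      f (fun q => if q ∈ A then y (r q) q else z q) = 0 := by
  classical
  set G : (Fin d → ι) → ℝ := fun r => f (fun q => if q ∈ A then y (r q) q else z q) with hG
  -- the complete sums vanish
  have hD : ∀ B ∈ J.powerset, ∑ r ∈ Fintype.piFinset (idxBox A B i0), G r = 0 := by
    intro B hB
    rw [mem_powerset] at hB
    have e1 : ∑ r ∈ Fintype.piFinset (idxBox A B i0), G r
        = f (fun q => ∑ i ∈ idxBox A B i0 q, (if q ∈ A then y i q else z q)) := by
      rw [hG]
      exact (f.toMultilinearMap.map_sum_finset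
        (fun q i => if q ∈ A then y i q else z q) (idxBox A B i0)).symm
    rw [e1]
    apply f.map_linearDependent
    intro hli
    have hs : ∑ q ∈ A, (1 : ℝ) •
        (∑ i ∈ idxBox A B i0 q, (if q ∈ A then y i q else z q)) = 0 := by
      calc ∑ q ∈ A, (1 : ℝ) • (∑ i ∈ idxBox A B i0 q, (if q ∈ A then y i q else z q))
          = ∑ q ∈ A, ∑ i ∈ B, y i q := by
            refine Finset.sum_congr rfl fun q hq => ?_
            rw [one_smul]
            simp [idxBox, hq]
        _ = ∑ i ∈ B, ∑ q ∈ A, y i q := Finset.sum_comm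
        _ = 0 := Finset.sum_eq_zero fun i hi => hy i (hB hi)
    obtain ⟨q0, hq0⟩ := hA
    have := (linearIndependent_iff'.mp hli) A (fun _ => (1 : ℝ)) hs q0 hq0
    exact one_ne_zero this
  -- signed sum
  have h0 : ∑ B ∈ J.powerset, ((-1 : ℤ) ^ B.card : ℤ) •
      ∑ r ∈ Fintype.piFinset (idxBox A B i0), G r = 0 :=
    Finset.sum_eq_zero fun B hB => by rw [hD B hB, smul_zero]
  -- write the inner boxes as filters of the big one
  have hfil : ∀ B ∈ J.powerset, Fintype.piFinset (idxBox A B i0)
      = (Fintype.piFinset (idxBox A J i0)).filter (fun r => A.image r ⊆ B) := by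
    intro B hB
    rw [mem_powerset] at hB
    ext r
    simp only [mem_filter, Fintype.mem_piFinset, idxBox]
    constructor
    · intro h
      refine ⟨fun q => ?_, ?_⟩
      · have := h q
        split_ifs at this ⊢ with hq
        · exact hB this
        · exact this
      · intro i hi
        rw [mem_image] at hi
        obtain ⟨q, hq, rfl⟩ := hi
        have := h q
        rwa [if_pos hq] at this
    · rintro ⟨h1, h2⟩ q
      have := h1 q
      split_ifs at this ⊢ with hq
      · exact h2 (mem_image_of_mem _ hq)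
      · exact this
  have h1 : ∑ B ∈ J.powerset, ∑ r ∈ Fintype.piFinset (idxBox A J i0),
      (if A.image r ⊆ B then ((-1 : ℤ) ^ B.card : ℤ) • G r else 0) = 0 := by
    refine Eq.trans (Finset.sum_congr rfl fun B hB => ?_) h0
    rw [hfil B hB, Finset.smul_sum, Finset.sum_filter]
  rw [Finset.sum_comm] at h1
  have h2 : ∀ r ∈ Fintype.piFinset (idxBox A J i0),
      ∑ B ∈ J.powerset, (if A.image r ⊆ B then ((-1 : ℤ) ^ B.card : ℤ) • G r else 0)
        = if A.image r = J then ((-1 : ℤ) ^ J.card : ℤ) • G r else 0 := by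
    intro r hr
    have hsub : A.image r ⊆ J := by
      intro i hi
      rw [mem_image] at hi
      obtain ⟨q, hq, rfl⟩ := hi
      have := (Fintype.mem_piFinset.mp hr) q
      rwa [idxBox, if_pos hq] at this
    rw [← Finset.sum_filter, ← Finset.sum_smul, sum_signed_superset J _ hsub]
    split_ifs
    · rfl
    · rw [zero_smul]
  rw [Finset.sum_congr rfl h2, ← Finset.sum_filter, ← Finset.smul_sum] at h1
  rcases Nat.even_or_odd J.card with he | ho
  · rw [he.neg_one_pow, one_smul] at h1; exact h1
  · rw [ho.neg_one_pow, neg_one_smul, neg_eq_zero] at h1; exact h1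

/-- Existence of a wrong transversal through prescribed disjoint balanced sets. -/
theorem exists_wrong_transversal [DecidableEq V] (f : V [⋀^Fin d]→ₗ[ℝ] ℝ)
    (X : Fin d → Finset V) (hX : ∀ p q, p ≠ q → Disjoint (X p) (X q))
    (A : Finset (Fin d)) (hA : A.Nonempty) (J : Finset (Finset V)) (hJA : J.card = A.card)
    (w : Finset V → V → ℝ)
    (hw : ∀ S ∈ J, ∀ v ∈ S, 0 < w S v) (hw0 : ∀ S ∈ J, ∑ v ∈ S, w S v • v = 0)
    (hS : ∀ S ∈ J, S ⊆ Finset.univ.biUnion X)
    (hSA : ∀ S ∈ J, ∀ q, (S ∩ X q).Nonempty ↔ q ∈ A)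
    (z : Fin d → V) :
    ∃ r : Fin d → Finset V, A.image r = J ∧
      ∃ v : Fin d → V, (∀ q ∈ A, v q ∈ r q ∩ X q) ∧ (∀ q, q ∉ A → v q = z q) ∧ f v ≤ 0 := by
  classical
  by_contra hcon
  push Not at hcon
  -- the balanced vectors
  set y : Finset V → Fin d → V := fun S q => ∑ v ∈ S ∩ X q, w S v • v with hy
  have hy0 : ∀ S ∈ J, ∑ q ∈ A, y S q = 0 := by
    intro S hSJ
    rw [← hw0 S hSJ]
    have hpart : S = A.biUnion (fun q => S ∩ X q) := by
      ext v
      constructor
      · intro hv
        have := hS S hSJ hv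
        rw [mem_biUnion] at this ⊢
        obtain ⟨q, -, hq⟩ := this
        refine ⟨q, ?_, mem_inter.mpr ⟨hv, hq⟩⟩
        exact (hSA S hSJ q).mp ⟨v, mem_inter.mpr ⟨hv, hq⟩⟩
      · intro hv
        rw [mem_biUnion] at hv
        obtain ⟨q, -, hq⟩ := hv
        exact (mem_inter.mp hq).1
    have hsum : ∑ v ∈ A.biUnion (fun q => S ∩ X q), w S v • v
        = ∑ q ∈ A, ∑ v ∈ S ∩ X q, w S v • v := by
      apply Finset.sum_biUnion
      intro p _ q _ hpq
      exact (hX p q hpq).mono Finset.inter_subset_right Finset.inter_subset_right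
    rw [← hpart] at hsum
    rw [hsum]
  obtain ⟨q0, hq0⟩ := hA
  obtain ⟨S0, hS0⟩ : J.Nonempty := by
    rw [← Finset.card_pos, hJA]; exact Finset.card_pos.mpr ⟨q0, hq0⟩
  have hzero := decoupled_sum f A ⟨q0, hq0⟩ J y hy0 z S0
  -- all terms are positive
  have hpos : ∀ r ∈ (Fintype.piFinset (idxBox A J S0)).filter (fun r => A.image r = J),
      0 < f (fun q => if q ∈ A then y (r q) q else z q) := by
    intro r hr
    rw [mem_filter] at hr
    obtain ⟨hr1, hr2⟩ := hr
    have hrJ : ∀ q ∈ A, r q ∈ J := fun q hq => by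
      rw [← hr2]; exact mem_image_of_mem _ hq
    have hne := hcon r hr2
    -- expand
    let T : Fin d → Finset V := fun q => if q ∈ A then r q ∩ X q else {z q}
    have hexp : f (fun q => if q ∈ A then y (r q) q else z q)
        = ∑ v ∈ Fintype.piFinset T, f (fun q => (if q ∈ A then w (r q) (v q) else 1) • v q) := by
      have := f.toMultilinearMap.map_sum_finset
        (fun q (u : V) => (if q ∈ A then w (r q) u else 1) • u) T
      have e : (fun q => if q ∈ A then y (r q) q else z q)
          = fun q => ∑ u ∈ T q, (if q ∈ A then w (r q) u else 1) • u := by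
        funext q
        by_cases hq : q ∈ A
        · simp [T, hq, hy]
        · simp [T, hq]
      rw [e]
      exact this
    rw [hexp]
    have hTne : (Fintype.piFinset T).Nonempty := by
      rw [Fintype.piFinset_nonempty]
      intro q
      by_cases hq : q ∈ A
      · simp only [T, if_pos hq]
        exact (hSA _ (hrJ q hq) q).mpr hq
      · simp only [T, if_neg hq]
        exact singleton_nonempty _
    apply Finset.sum_pos _ hTne
    intro v hv
    rw [Fintype.mem_piFinset] at hv
    have e2 : f (fun q => (if q ∈ A then w (r q) (v q) else 1) • v q)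
        = (∏ q, (if q ∈ A then w (r q) (v q) else 1)) * f v := by
      have := f.toMultilinearMap.map_smul_univ (fun q => if q ∈ A then w (r q) (v q) else 1) v
      simpa [smul_eq_mul] using this
    rw [e2]
    have hv1 : ∀ q ∈ A, v q ∈ r q ∩ X q := by
      intro q hq
      have := hv q
      simpa only [T, if_pos hq] using this
    have hv2 : ∀ q, q ∉ A → v q = z q := by
      intro q hq
      have := hv q
      simpa only [T, if_neg hq, mem_singleton] using this
    apply mul_pos
    · apply Finset.prod_pos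
      intro q _
      split_ifs with hq
      · exact hw _ (hrJ q hq) _ (mem_inter.mp (hv1 q hq)).1
      · exact one_pos
    · exact hne v hv1 hv2
  -- there is at least one bijection
  have hex : ((Fintype.piFinset (idxBox A J S0)).filter (fun r => A.image r = J)).Nonempty := by
    have hcard : A.card = J.card := hJA.symm
    let e : A ≃ J := Finset.equivOfCardEq hcard
    let r : Fin d → Finset V := fun q => if hq : q ∈ A then (e ⟨q, hq⟩ : Finset V) else S0
    refine ⟨r, ?_⟩
    rw [mem_filter, Fintype.mem_piFinset]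
    refine ⟨fun q => ?_, ?_⟩
    · by_cases hq : q ∈ A
      · simp only [idxBox, if_pos hq, r, dif_pos hq]
        exact (e ⟨q, hq⟩).2
      · simp only [idxBox, if_neg hq, r, dif_neg hq, mem_singleton]
    · ext S
      rw [mem_image]
      constructor
      · rintro ⟨q, hq, rfl⟩
        simp only [r, dif_pos hq]
        exact (e ⟨q, hq⟩).2
      · intro hSJ
        refine ⟨(e.symm ⟨S, hSJ⟩ : Fin d), (e.symm ⟨S, hSJ⟩).2, ?_⟩
        simp [r]
  exact absurd hzero (ne_of_gt (Finset.sum_pos hpos hex))

end Pool.Agent.Lib.MP_f1849d_co
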