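import Mathlib
import Pool.Agent.Lib.MP_f1849d_co.BoxPaths
import Pool.Agent.Lib.MP_f1849d_co.Decouple

/-!
The half-space lemma: if almost all transversals `z` of the classes `X q` satisfy
`0 ∈ conv (a, z)`, then some closed half-space with `0` on its boundary contains only few
elements of the classes.
-/

namespace Pool.Agent.Lib.MP_f1849d_co

open Finset

section sign

variable {d : ℕ} {V : Type*} [AddCommGroup V] [Module ℝ V]

theorem mem_convexHull_range_iff {ι : Type*} [Fintype ι] (z : ι → V) (x : V)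
    (hx : x ∈ convexHull ℝ (Set.range z)) :
    ∃ w : ι → ℝ, (∀ i, 0 ≤ w i) ∧ ∑ i, w i = 1 ∧ ∑ i, w i • z i = x := by
  classical
  have hsub : convexHull ℝ (Set.range z) ⊆
      (Fintype.linearCombination ℝ z) '' (stdSimplex ℝ ι) := by
    apply convexHull_min
    · rintro _ ⟨i, rfl⟩
      refine ⟨Pi.single i 1, single_mem_stdSimplex ℝ i, ?_⟩
      rw [Fintype.linearCombination_apply_single, one_smul]
    · exact (convex_stdSimplex ℝ ι).linear_image _
  obtain ⟨w, hw, rfl⟩ := hsub hx
  exact ⟨w, hw.1, hw.2, by rw [Fintype.linearCombination_apply]⟩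

theorem det_update_combination (f : V [⋀^Fin d]→ₗ[ℝ] ℝ) (z : Fin d → V) (c : Fin d → ℝ)
    (q : Fin d) : f (Function.update z q (∑ p, c p • z p)) = c q * f z := by
  classical
  rw [f.map_update_sum]
  rw [Finset.sum_eq_single q]
  · rw [f.map_update_smul, Function.update_eq_self, smul_eq_mul]
  · intro p _ hp
    rw [f.map_update_smul, f.map_update_self _ (Ne.symm hp), smul_zero]
  · intro h; exact absurd (mem_univ q) h

theorem good_sign (hd : 1 ≤ d) (f : V [⋀^Fin d]→ₗ[ℝ] ℝ) (z : Fin d → V) (a : V) (hz : f z ≠ 0)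
    (ha : ∀ q, f (Function.update z q a) ≠ 0)
    (hgood : (0 : V) ∈ convexHull ℝ (insert a (Set.range z))) (q : Fin d) :
    f (Function.update z q a) * f z < 0 := by
  classical
  have hne : (Set.range z).Nonempty := ⟨z ⟨0, hd⟩, ⟨_, rfl⟩⟩
  rw [convexHull_insert hne, mem_convexJoin] at hgood
  obtain ⟨a', ha', y, hy, hseg⟩ := hgood
  rw [Set.mem_singleton_iff] at ha'
  subst ha'
  obtain ⟨w, hw0, hw1, hwy⟩ := mem_convexHull_range_iff z y hy
  obtain ⟨α, β, hα, hβ, hαβ, h0⟩ := hseg
  -- `α a = - β y`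
  have hαa : α • a' = ∑ p, (-(β * w p)) • z p := by
    have : α • a' = -(β • y) := eq_neg_of_add_eq_zero_left h0
    rw [this, ← hwy, Finset.smul_sum, ← Finset.sum_neg_distrib]
    refine Finset.sum_congr rfl fun p _ => ?_
    rw [neg_smul, mul_smul]
  have key := det_update_combination f z (fun p => -(β * w p)) q
  rw [← hαa, f.map_update_smul, smul_eq_mul] at key
  have hαpos : 0 < α := by
    rcases hα.lt_or_eq with h | h
    · exact h
    · exfalso
      -- then `y = 0` and all coefficients vanish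
      have hβ1 : β = 1 := by linarith
      have hall : ∀ p, w p = 0 := by
        intro p
        have kp := det_update_combination f z (fun p => -(β * w p)) p
        rw [← hαa, f.map_update_smul, smul_eq_mul, ← h, zero_mul, hβ1] at kp
        have : (-(1 * w p)) = 0 := by
          rcases mul_eq_zero.mp kp.symm with h' | h'
          · exact h'
          · exact absurd h' hz
        linarith
      have : ∑ p, w p = 0 := Finset.sum_eq_zero fun p _ => hall p
      linarith
  have hc : 0 < β * w q := by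
    rcases (mul_nonneg hβ (hw0 q)).lt_or_eq with h | h
    · exact h
    · exfalso
      rw [← h, neg_zero, zero_mul] at key
      rcases mul_eq_zero.mp key with h' | h'
      · linarith
      · exact ha q h'
  have hfz : 0 < f z * f z := mul_self_pos.mpr hz
  have h1 : α * (f (Function.update z q a') * f z) = -((β * w q) * (f z * f z)) := by
    rw [← mul_assoc, key]; ring
  have h2 : α * (f (Function.update z q a') * f z) < 0 := by
    rw [h1]; exact neg_lt_zero.mpr (mul_pos hc hfz)
  by_contra hcon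
  push Not at hcon
  have := mul_nonneg hα hcon
  linarith

end sign

theorem pow_le_choose_of_le (y s : ℕ) : ∀ m, s * y ≤ m → y ^ s ≤ m.choose s := by
  induction s with
  | zero => intro m _; simp
  | succ s ih =>
    intro m hm
    rcases Nat.eq_zero_or_pos y with hy | hy
    · subst hy; simp
    · obtain ⟨m', rfl⟩ : ∃ m', m = m' + 1 := ⟨m - 1, by
        have : 1 ≤ (s + 1) * y := Nat.mul_pos (Nat.succ_pos s) hy
        omega⟩
      have h1 : s * y ≤ m' := by
        have : (s + 1) * y = s * y + y := by ring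
        omega
      have h2 := ih m' h1
      have h3 : (m' + 1) * m'.choose s = (m' + 1).choose (s + 1) * (s + 1) :=
        Nat.add_one_mul_choose_eq m' s
      have h4 : (s + 1) * y * y ^ s ≤ (m' + 1) * m'.choose s := Nat.mul_le_mul hm h2
      have h5 : y ^ (s + 1) * (s + 1) ≤ (m' + 1).choose (s + 1) * (s + 1) := by
        rw [← h3]
        calc y ^ (s + 1) * (s + 1) = (s + 1) * y * y ^ s := by ring
          _ ≤ _ := h4
      exact Nat.le_of_mul_le_mul_right h5 (Nat.succ_pos s)

section family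

variable {V : Type*} [NormedAddCommGroup V] [NormedSpace ℝ V] [FiniteDimensional ℝ V]

/-- one balanced set -/
theorem exists_balanced (Y : Finset V) (h0 : (0 : V) ∈ convexHull ℝ (Y : Set V)) :
    ∃ S : Finset V, S ⊆ Y ∧ S.Nonempty ∧ S.card ≤ Module.finrank ℝ V + 1 ∧
      ∃ w : V → ℝ, (∀ v ∈ S, 0 < w v) ∧ ∑ v ∈ S, w v • v = 0 := by
  classical
  obtain ⟨ι, hι, z, w, hz, hai, hw, hw1, hw0⟩ := eq_pos_convex_span_of_mem_convexHull h0
  have hinj : Function.Injective z := hai.injective
  refine ⟨Finset.univ.image z, ?_, ?_, ?_, ?_⟩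
  · intro v hv
    rw [mem_image] at hv
    obtain ⟨i, -, rfl⟩ := hv
    exact_mod_cast hz ⟨i, rfl⟩
  · rw [Finset.image_nonempty]
    by_contra hne
    rw [Finset.not_nonempty_iff_eq_empty] at hne
    rw [hne, Finset.sum_empty] at hw1
    exact zero_ne_one hw1
  · rw [Finset.card_image_of_injective _ hinj, Finset.card_univ]
    have := hai.card_le_finrank_succ
    exact this.trans (Nat.succ_le_succ (Submodule.finrank_le _))
  · refine ⟨fun v => if h : ∃ i, z i = v then w h.choose else 1, ?_, ?_⟩
    · intro v hv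
      by_cases h : ∃ i, z i = v
      · simp only [dif_pos h]; exact hw _
      · simp only [dif_neg h]; exact one_pos
    · rw [Finset.sum_image (fun i _ j _ h => hinj h)]
      rw [← hw0]
      refine Finset.sum_congr rfl fun i _ => ?_
      have h : ∃ j, z j = z i := ⟨i, rfl⟩
      have hc : h.choose = i := hinj h.choose_spec
      simp only [dif_pos h, hc]

/-- many disjoint balanced sets if the depth of `0` is large -/
theorem exists_balanced_family (hfr : 1 ≤ Module.finrank ℝ V) (X : Finset V) (t : ℕ)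
    (hdepth : ∀ ν : V →L[ℝ] ℝ, ν ≠ 0 → t < (X.filter (fun v => 0 ≤ ν v)).card) :
    ∀ M : ℕ, (Module.finrank ℝ V + 1) * M ≤ t + (Module.finrank ℝ V + 1) →
      ∃ 𝓕 : Finset (Finset V), 𝓕.card = M ∧ ((𝓕 : Set (Finset V)).PairwiseDisjoint id) ∧
        ∀ S ∈ 𝓕, S ⊆ X ∧ S.Nonempty ∧ S.card ≤ Module.finrank ℝ V + 1 ∧
          ∃ w : V → ℝ, (∀ v ∈ S, 0 < w v) ∧ ∑ v ∈ S, w v • v = 0 := by
  classical
  intro M
  induction M with
  | zero => intro _; exact ⟨∅, by simp, by simp, by simp⟩
  | succ M ih =>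
    intro hM
    set D := Module.finrank ℝ V + 1 with hD
    have hM' : D * M ≤ t := by
      have : D * (M + 1) = D * M + D := by ring
      omega
    obtain ⟨𝓕, hcard, hdis, hF⟩ := ih (by omega)
    set R := 𝓕.biUnion id with hR
    have hRcard : R.card ≤ t := by
      calc R.card ≤ ∑ S ∈ 𝓕, (id S).card := Finset.card_biUnion_le
        _ ≤ ∑ S ∈ 𝓕, D := Finset.sum_le_sum fun S hS => (hF S hS).2.2.1
        _ = M * D := by rw [Finset.sum_const, hcard, smul_eq_mul]
        _ = D * M := by ring
        _ ≤ t := hM'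
    -- 0 lies in the convex hull of the rest
    have h0 : (0 : V) ∈ convexHull ℝ ((X \ R : Finset V) : Set V) := by
      by_contra hcon
      have hcl : IsClosed (convexHull ℝ ((X \ R : Finset V) : Set V)) :=
        (Finset.finite_toSet _).isClosed_convexHull ℝ
      obtain ⟨ν, u, h1, h2⟩ := geometric_hahn_banach_point_closed (convex_convexHull ℝ _) hcl hcon
      rw [map_zero] at h1
      -- take a nonzero functional, negative on the rest
      obtain ⟨ν', hν', hneg⟩ : ∃ ν' : V →L[ℝ] ℝ, ν' ≠ 0 ∧ ∀ v ∈ X \ R, ν' v < 0 := by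
        by_cases hne : (X \ R).Nonempty
        · refine ⟨-ν, ?_, ?_⟩
          · intro h
            obtain ⟨v, hv⟩ := hne
            have := h2 v (subset_convexHull ℝ _ (by exact_mod_cast hv))
            have hν0 : ν = 0 := by rwa [neg_eq_zero] at h
            rw [hν0] at this
            simp only [zero_apply] at this
            linarith
          · intro v hv
            have := h2 v (subset_convexHull ℝ _ (by exact_mod_cast hv))
            simp only [neg_apply]
            linarith
        · rw [Finset.not_nonempty_iff_eq_empty] at hne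
          have : Nontrivial V := Module.nontrivial_of_finrank_pos (R := ℝ) (by omega)
          obtain ⟨ν', hν'⟩ := exists_ne (0 : V →L[ℝ] ℝ)
          exact ⟨ν', hν', by rw [hne]; simp⟩
      have hd1 := hdepth ν' hν'
      have hsub : X.filter (fun v => 0 ≤ ν' v) ⊆ R := by
        intro v hv
        rw [mem_filter] at hv
        by_contra hvR
        have := hneg v (mem_sdiff.mpr ⟨hv.1, hvR⟩)
        linarith [hv.2]
      have := Finset.card_le_card hsub
      omega
    obtain ⟨S, hS1, hS2, hS3, hS4⟩ := exists_balanced _ h0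
    have hSR : Disjoint S R := by
      rw [Finset.disjoint_left]
      intro v hv
      exact (mem_sdiff.mp (hS1 hv)).2
    have hSF : S ∉ 𝓕 := by
      intro h
      obtain ⟨v, hv⟩ := hS2
      exact (Finset.disjoint_left.mp hSR) hv (mem_biUnion.mpr ⟨S, h, hv⟩)
    refine ⟨insert S 𝓕, ?_, ?_, ?_⟩
    · rw [Finset.card_insert_of_notMem hSF, hcard]
    · rw [Finset.coe_insert, Set.pairwiseDisjoint_insert_of_notMem (by exact_mod_cast hSF)]
      refine ⟨hdis, ?_⟩
      intro T hT
      simp only [id]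
      apply hSR.mono_right
      intro v hv
      exact mem_biUnion.mpr ⟨T, by exact_mod_cast hT, hv⟩
    · intro T hT
      rw [mem_insert] at hT
      rcases hT with rfl | hT
      · exact ⟨hS1.trans Finset.sdiff_subset, hS2, hS3, hS4⟩
      · exact hF T hT

end family

section main

variable {d : ℕ} {V : Type*} [NormedAddCommGroup V] [NormedSpace ℝ V] [FiniteDimensional ℝ V]

omit [FiniteDimensional ℝ V] in
/-- Counting: if few transversals are `f`-wrong then each class-homogeneous disjoint balanced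
family is small. -/
theorem wrong_count [DecidableEq V] (f : V [⋀^Fin d]→ₗ[ℝ] ℝ)
    (X : Fin d → Finset V) (hX : ∀ p q, p ≠ q → Disjoint (X p) (X q))
    (A : Finset (Fin d)) (hA : A.Nonempty) (𝓕 : Finset (Finset V))
    (hdis : (𝓕 : Set (Finset V)).PairwiseDisjoint id)
    (w : Finset V → V → ℝ)
    (hw : ∀ S ∈ 𝓕, ∀ v ∈ S, 0 < w S v) (hw0 : ∀ S ∈ 𝓕, ∑ v ∈ S, w S v • v = 0)
    (hS : ∀ S ∈ 𝓕, S ⊆ Finset.univ.biUnion X)
    (hSA : ∀ S ∈ 𝓕, ∀ q, (S ∩ X q).Nonempty ↔ q ∈ A)
    (Wr : Finset (Fin d → V)) (hWr : ∀ z ∈ Fintype.piFinset X, f z ≤ 0 → z ∈ Wr) :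
    𝓕.card.choose A.card * ∏ q ∈ Aᶜ, (X q).card ≤ Wr.card := by
  classical
  set Z : Finset (Fin d → V) := Fintype.piFinset (fun q => if q ∈ A then {0} else X q) with hZ
  have hZcard : Z.card = ∏ q ∈ Aᶜ, (X q).card := by
    rw [hZ, Fintype.card_piFinset]
    rw [← Finset.prod_mul_prod_compl A]
    have h1 : ∏ q ∈ A, (if q ∈ A then ({0} : Finset V) else X q).card = 1 := by
      apply Finset.prod_eq_one
      intro q hq
      simp [hq]
    rw [h1, one_mul]
    apply Finset.prod_congr rfl
    intro q hq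
    rw [mem_compl] at hq
    simp [hq]
  set P := (Finset.powersetCard A.card 𝓕) ×ˢ Z with hP
  have hPcard : P.card = 𝓕.card.choose A.card * ∏ q ∈ Aᶜ, (X q).card := by
    rw [hP, Finset.card_product, Finset.card_powersetCard, hZcard]
  rw [← hPcard]
  let Φ : (Fin d → V) → Finset (Finset V) × (Fin d → V) := fun v =>
    (𝓕.filter (fun S => ∃ q ∈ A, v q ∈ S), fun q => if q ∈ A then 0 else v q)
  apply Finset.card_le_card_of_surjOn Φ
  rintro ⟨J, z⟩ hJz
  rw [Finset.mem_coe, hP, mem_product, mem_powersetCard] at hJz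
  obtain ⟨⟨hJ1, hJ2⟩, hz⟩ := hJz
  simp only at hJ1 hJ2 hz
  rw [hZ, Fintype.mem_piFinset] at hz
  obtain ⟨r, hr, v, hv1, hv2, hv3⟩ := exists_wrong_transversal f X hX A hA J hJ2 w
    (fun S h => hw S (hJ1 h)) (fun S h => hw0 S (hJ1 h)) (fun S h => hS S (hJ1 h))
    (fun S h => hSA S (hJ1 h)) z
  have hvX : v ∈ Fintype.piFinset X := by
    rw [Fintype.mem_piFinset]
    intro q
    by_cases hq : q ∈ A
    · exact (mem_inter.mp (hv1 q hq)).2
    · rw [hv2 q hq]
      have := hz q
      rwa [if_neg hq] at this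
  refine ⟨v, hWr v hvX hv3, ?_⟩
  simp only [Φ, Prod.mk.injEq]
  constructor
  · ext S
    rw [mem_filter]
    constructor
    · rintro ⟨hSF, q, hq, hvS⟩
      have hrJ : r q ∈ J := by rw [← hr]; exact mem_image_of_mem _ hq
      have hvr : v q ∈ r q := (mem_inter.mp (hv1 q hq)).1
      have : S = r q := by
        by_contra hne
        have := hdis (by exact_mod_cast hSF) (by exact_mod_cast hJ1 hrJ) hne
        exact (Finset.disjoint_left.mp this) hvS hvr
      rw [this]; exact hrJ
    · intro hSJ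
      refine ⟨hJ1 hSJ, ?_⟩
      rw [← hr, mem_image] at hSJ
      obtain ⟨q, hq, rfl⟩ := hSJ
      exact ⟨q, hq, (mem_inter.mp (hv1 q hq)).1⟩
  · funext q
    by_cases hq : q ∈ A
    · have := hz q
      rw [if_pos hq, mem_singleton] at this
      rw [if_pos hq, this]
    · rw [if_neg hq, hv2 q hq]

/-- **Half-space lemma.** -/
theorem exists_halfspace [DecidableEq V] (hd : 1 ≤ d) (b : Module.Basis (Fin d) ℝ V)
    (X : Fin d → Finset V) (hX : ∀ p q, p ≠ q → Disjoint (X p) (X q)) (a : V)
    (hgen : ∀ z ∈ Fintype.piFinset X, b.det z ≠ 0)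
    (hgena : ∀ z ∈ Fintype.piFinset X, ∀ q, b.det (Function.update z q a) ≠ 0)
    (Bad : Finset (Fin d → V))
    (hBad : ∀ z ∈ Fintype.piFinset X,
      (0 : V) ∉ convexHull ℝ (insert a (Set.range z)) → z ∈ Bad)
    (n y : ℕ) (hn : ∀ q, (X q).card ≤ n)
    (hβ : (4 * d + 1) * Bad.card * n ^ d < y ^ d * (Fintype.piFinset X).card) :
    ∃ ν : V →L[ℝ] ℝ, ν ≠ 0 ∧
      ∑ q, ((X q).filter (fun v => 0 ≤ ν v)).card ≤ (d + 1) * (2 ^ d * (d * y)) := by
  classical
  have hfr : Module.finrank ℝ V = d := by
    rw [Module.finrank_eq_card_basis b, Fintype.card_fin]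
  set t := (d + 1) * (2 ^ d * (d * y)) with ht
  by_contra hcon
  push Not at hcon
  -- `y ≤ n`
  have hyn : y ≤ n := by
    by_contra hlt
    push Not at hlt
    have : Nontrivial V := Module.nontrivial_of_finrank_pos (R := ℝ) (by omega)
    obtain ⟨ν, hν⟩ := exists_ne (0 : V →L[ℝ] ℝ)
    have h1 := hcon ν hν
    have h2 : ∑ q, ((X q).filter (fun v => 0 ≤ ν v)).card ≤ d * n := by
      calc ∑ q, ((X q).filter (fun v => 0 ≤ ν v)).card ≤ ∑ q : Fin d, n :=
            Finset.sum_le_sum fun q _ => (Finset.card_filter_le _ _).trans (hn q)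
        _ = d * n := by simp
    have h3 : d * n ≤ d * y := Nat.mul_le_mul_left _ hlt.le
    have h4 : d * y ≤ 2 ^ d * (d * y) := Nat.le_mul_of_pos_left _ (by positivity)
    have h5 : 2 ^ d * (d * y) ≤ t := Nat.le_mul_of_pos_left _ (by omega)
    omega
  -- signs
  set Gp := (Fintype.piFinset X).filter
    (fun z => (0 : V) ∈ convexHull ℝ (insert a (Set.range z)) ∧ 0 < b.det z) with hGp
  set Gm := (Fintype.piFinset X).filter
    (fun z => (0 : V) ∈ convexHull ℝ (insert a (Set.range z)) ∧ b.det z < 0) with hGm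
  have hmin := box_minority hd X Gp Gm Bad (Finset.filter_subset _ _) (Finset.filter_subset _ _)
    (by
      rw [Finset.disjoint_left]
      intro z hz hz'
      rw [hGp, mem_filter] at hz
      rw [hGm, mem_filter] at hz'
      linarith [hz.2.2, hz'.2.2])
    (by
      intro z hz
      by_cases hg : (0 : V) ∈ convexHull ℝ (insert a (Set.range z))
      · rcases lt_or_gt_of_ne (hgen z hz) with h | h
        · right; left; rw [hGm, mem_filter]; exact ⟨hz, hg, h⟩
        · left; rw [hGp, mem_filter]; exact ⟨hz, hg, h⟩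
      · right; right; exact hBad z hz hg)
    (by
      intro z hz q v hzv
      rw [hGp, mem_filter] at hz
      rw [hGm, mem_filter] at hzv
      have h1 := good_sign hd b.det z a (hgen z hz.1) (hgena z hz.1) hz.2.1 q
      have h2 := good_sign hd b.det _ a (hgen _ hzv.1) (hgena _ hzv.1) hzv.2.1 q
      rw [Function.update_idem] at h2
      have h3 := hz.2.2
      have h4 := hzv.2.2
      have h5 : b.det (Function.update z q a) < 0 := by
        by_contra h
        push Not at h
        have := mul_nonneg h h3.le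
        linarith
      have := mul_pos_of_neg_of_neg h5 h4
      linarith)
  -- the alternating map of the majority sign
  obtain ⟨f, Wr, hWr, hWrcard⟩ : ∃ f : V [⋀^Fin d]→ₗ[ℝ] ℝ, ∃ Wr : Finset (Fin d → V),
      (∀ z ∈ Fintype.piFinset X, f z ≤ 0 → z ∈ Wr) ∧ Wr.card ≤ (4 * d + 1) * Bad.card := by
    rcases hmin with h | h
    · refine ⟨-b.det, Gp ∪ Bad, ?_, ?_⟩
      · intro z hz hfz
        rw [mem_union]
        by_cases hg : (0 : V) ∈ convexHull ℝ (insert a (Set.range z))
        · left
          rw [hGp, mem_filter]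
          refine ⟨hz, hg, ?_⟩
          rw [AlternatingMap.neg_apply] at hfz
          rcases lt_or_gt_of_ne (hgen z hz) with h' | h'
          · linarith
          · exact h'
        · right; exact hBad z hz hg
      · calc (Gp ∪ Bad).card ≤ Gp.card + Bad.card := Finset.card_union_le _ _
          _ ≤ 4 * d * Bad.card + Bad.card := by omega
          _ = (4 * d + 1) * Bad.card := by ring
    · refine ⟨b.det, Gm ∪ Bad, ?_, ?_⟩
      · intro z hz hfz
        rw [mem_union]
        by_cases hg : (0 : V) ∈ convexHull ℝ (insert a (Set.range z))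
        · left
          rw [hGm, mem_filter]
          exact ⟨hz, hg, lt_of_le_of_ne hfz (hgen z hz)⟩
        · right; exact hBad z hz hg
      · calc (Gm ∪ Bad).card ≤ Gm.card + Bad.card := Finset.card_union_le _ _
          _ ≤ 4 * d * Bad.card + Bad.card := by omega
          _ = (4 * d + 1) * Bad.card := by ring
  -- the balanced family
  have hdepth : ∀ ν : V →L[ℝ] ℝ, ν ≠ 0 →
      t < ((Finset.univ.biUnion X).filter (fun v => 0 ≤ ν v)).card := by
    intro ν hν
    have h1 := hcon ν hν
    have h2 : ((Finset.univ.biUnion X).filter (fun v => 0 ≤ ν v)).card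
        = ∑ q, ((X q).filter (fun v => 0 ≤ ν v)).card := by
      rw [Finset.filter_biUnion]
      apply Finset.card_biUnion
      intro p _ q _ hpq
      exact (hX p q hpq).mono (Finset.filter_subset _ _) (Finset.filter_subset _ _)
    rw [h2]; exact h1
  obtain ⟨𝓕, hFcard, hFdis, hF⟩ := exists_balanced_family (by omega) (Finset.univ.biUnion X) t
    hdepth (2 ^ d * (d * y) + 1) (by
      rw [hfr, ht]
      have : (d + 1) * (2 ^ d * (d * y) + 1) = (d + 1) * (2 ^ d * (d * y)) + (d + 1) := by ring
      omega)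
  have hex : ∀ S : Finset V, ∃ w : V → ℝ, S ∈ 𝓕 →
      (∀ v ∈ S, 0 < w v) ∧ ∑ v ∈ S, w v • v = 0 := by
    intro S
    by_cases h : S ∈ 𝓕
    · obtain ⟨w, hw⟩ := (hF S h).2.2.2
      exact ⟨w, fun _ => hw⟩
    · exact ⟨0, fun h' => absurd h' h⟩
  choose w hw using hex
  -- pigeonhole on the classes
  let cls : Finset V → Finset (Fin d) := fun S => Finset.univ.filter (fun q => (S ∩ X q).Nonempty)
  obtain ⟨A, -, hA⟩ : ∃ A ∈ (Finset.univ : Finset (Finset (Fin d))),
      d * y < (𝓕.filter (fun S => cls S = A)).card := by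
    apply Finset.exists_lt_card_fiber_of_mul_lt_card_of_maps_to (fun S _ => mem_univ _)
    rw [hFcard, Finset.card_univ, Fintype.card_finset, Fintype.card_fin]
    omega
  set 𝓖 := 𝓕.filter (fun S => cls S = A) with hG
  have hGF : 𝓖 ⊆ 𝓕 := Finset.filter_subset _ _
  have hSA : ∀ S ∈ 𝓖, ∀ q, (S ∩ X q).Nonempty ↔ q ∈ A := by
    intro S hS q
    rw [hG, mem_filter] at hS
    rw [← hS.2]
    simp [cls]
  have hAne : A.Nonempty := by
    obtain ⟨S, hS⟩ : 𝓖.Nonempty := by
      rw [← Finset.card_pos]; omega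
    obtain ⟨v, hv⟩ := (hF S (hGF hS)).2.1
    have hvX := (hF S (hGF hS)).1 hv
    rw [mem_biUnion] at hvX
    obtain ⟨q, -, hq⟩ := hvX
    exact ⟨q, (hSA S hS q).mp ⟨v, mem_inter.mpr ⟨hv, hq⟩⟩⟩
  have hcount := wrong_count f X hX A hAne 𝓖
    (hFdis.subset (by exact_mod_cast hGF)) w
    (fun S hS => (hw S (hGF hS)).1) (fun S hS => (hw S (hGF hS)).2)
    (fun S hS => (hF S (hGF hS)).1) hSA Wr hWr
  -- final computation
  set s := A.card with hs
  have hsd : s ≤ d := by
    calc s ≤ (Finset.univ : Finset (Fin d)).card := Finset.card_le_univ A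
      _ = d := by simp
  have hchoose : y ^ s ≤ 𝓖.card.choose s := by
    apply pow_le_choose_of_le
    calc s * y ≤ d * y := Nat.mul_le_mul_right _ hsd
      _ ≤ 𝓖.card := hA.le
  set PA := ∏ q ∈ A, (X q).card with hPA
  set PC := ∏ q ∈ Aᶜ, (X q).card with hPC
  have hPall : (Fintype.piFinset X).card = PA * PC := by
    rw [Fintype.card_piFinset, ← Finset.prod_mul_prod_compl A]
  have hPAn : PA ≤ n ^ s := by
    calc PA ≤ ∏ q ∈ A, n := Finset.prod_le_prod' fun q _ => hn q
      _ = n ^ s := by rw [Finset.prod_const]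
  have h1 : y ^ s * PC ≤ (4 * d + 1) * Bad.card :=
    calc y ^ s * PC ≤ 𝓖.card.choose s * PC := Nat.mul_le_mul_right _ hchoose
      _ ≤ Wr.card := hcount
      _ ≤ _ := hWrcard
  have h2 : y ^ d * (PA * PC) ≤ (4 * d + 1) * Bad.card * n ^ d := by
    have e1 : y ^ d = y ^ s * y ^ (d - s) := by rw [← pow_add]; congr 1; omega
    have e2 : n ^ d = n ^ s * n ^ (d - s) := by rw [← pow_add]; congr 1; omega
    calc y ^ d * (PA * PC) = (y ^ s * PC) * (PA * y ^ (d - s)) := by rw [e1]; ring
      _ ≤ ((4 * d + 1) * Bad.card) * (n ^ s * n ^ (d - s)) := by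
          apply Nat.mul_le_mul h1
          apply Nat.mul_le_mul hPAn
          exact Nat.pow_le_pow_left hyn _
      _ = (4 * d + 1) * Bad.card * n ^ d := by rw [e2]
  rw [hPall] at hβ
  omega

end main

end Pool.Agent.Lib.MP_f1849d_co
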