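import Mathlib
import Pool.Agent.Lib.MP_f1849d_co.HalfSpace
import Pool.Agent.Lib.MP_f1849d_co.CenterPoint

/-!
The extension order: a linear functional, injective on `P`, with an upper half-space containing
a definite proportion of the core `Q` and few elements of the classes `X q`.
-/

namespace Pool.Agent.Lib.MP_f1849d_co

open Finset Module
open scoped Pointwise

section max

variable {V : Type*} [AddCommGroup V] [Module ℝ V]

/-- the strict maximum of a linear functional is not in the convex hull of the others -/
theorem notMem_convexHull_of_strict_max (ν : V →ₗ[ℝ] ℝ) (S : Set V) (p : V)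
    (hp : ∀ v ∈ S, ν v < ν p) : p ∉ convexHull ℝ S := by
  intro h
  have hsub : convexHull ℝ S ⊆ {v | ν v < ν p} :=
    convexHull_min (fun v hv => hp v hv) (convex_halfSpace_lt ν.isLinear _)
  have := hsub h
  exact lt_irrefl (ν p) this

end max

variable {V : Type*} [NormedAddCommGroup V] [NormedSpace ℝ V] [FiniteDimensional ℝ V]

/-- a linear functional can be made injective on a finite set, preserving strict inequalities -/
theorem exists_injective_refinement (ν : V →L[ℝ] ℝ) (S : Finset V) :
    ∃ ν' : V →L[ℝ] ℝ, Set.InjOn ν' S ∧ ∀ u ∈ S, ∀ v ∈ S, ν u < ν v → ν' u < ν' v := by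
  classical
  -- a functional which is injective on `S`
  obtain ⟨μ, hμ⟩ : ∃ μ : V →L[ℝ] ℝ, ∀ u ∈ S, ∀ v ∈ S, u ≠ v → μ u ≠ μ v := by
    let ι := {p : V × V // p ∈ S ×ˢ S ∧ p.1 ≠ p.2}
    have : Finite ι := by
      apply Set.Finite.to_subtype
      apply (Finset.finite_toSet (S ×ˢ S)).subset
      intro p hp
      exact hp.1
    obtain ⟨f, hf⟩ := Module.exists_dual_forall_apply_ne_zero (K := ℝ) (M := V)
      (fun p : ι => p.1.1 - p.1.2) (fun p => sub_ne_zero.mpr p.2.2)
    refine ⟨LinearMap.toContinuousLinearMap f, ?_⟩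
    intro u hu v hv huv heq
    have := hf ⟨(u, v), ⟨mem_product.mpr ⟨hu, hv⟩, huv⟩⟩
    apply this
    simp only [map_sub]
    have heq' : f u = f v := heq
    rw [heq', sub_self]
  -- a small multiple
  have hev : ∀ p ∈ S ×ˢ S, ∀ᶠ ε in nhdsWithin (0 : ℝ) (Set.Ioi 0),
      (ν p.1 < ν p.2 → ν p.1 + ε * μ p.1 < ν p.2 + ε * μ p.2) := by
    rintro ⟨u, v⟩ _
    by_cases h : ν u < ν v
    · have hc : Filter.Tendsto (fun ε : ℝ => (ν v + ε * μ v) - (ν u + ε * μ u))
          (nhdsWithin 0 (Set.Ioi 0)) (nhds (ν v - ν u)) := by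
        have : Filter.Tendsto (fun ε : ℝ => (ν v + ε * μ v) - (ν u + ε * μ u))
            (nhds 0) (nhds ((ν v + 0 * μ v) - (ν u + 0 * μ u))) := by
          apply Continuous.tendsto
          fun_prop
        simp only [zero_mul, add_zero] at this
        exact this.mono_left nhdsWithin_le_nhds
      filter_upwards [hc.eventually (lt_mem_nhds (sub_pos.mpr h))] with ε hε _
      linarith
    · filter_upwards with ε h'
      exact absurd h' h
  have hall : ∀ᶠ ε in nhdsWithin (0 : ℝ) (Set.Ioi 0), ∀ p ∈ S ×ˢ S,
      (ν p.1 < ν p.2 → ν p.1 + ε * μ p.1 < ν p.2 + ε * μ p.2) := by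
    rw [Filter.eventually_all_finset]
    exact hev
  obtain ⟨ε, hε1, hε2⟩ := (hall.and self_mem_nhdsWithin).exists
  have hε0 : (0 : ℝ) < ε := hε2
  refine ⟨ν + ε • μ, ?_, ?_⟩
  · intro u hu v hv huv
    by_contra hne
    rcases lt_trichotomy (ν u) (ν v) with h | h | h
    · have := hε1 (u, v) (mem_product.mpr ⟨hu, hv⟩) h
      simp only [add_apply, smul_apply, smul_eq_mul] at huv this
      linarith
    · simp only [add_apply, smul_apply, smul_eq_mul] at huv
      rw [h] at huv
      have h2 : ε * μ u = ε * μ v := by linarith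
      exact hμ u hu v hv hne (mul_left_cancel₀ hε0.ne' h2)
    · have := hε1 (v, u) (mem_product.mpr ⟨hv, hu⟩) h
      simp only [add_apply, smul_apply, smul_eq_mul] at huv this
      linarith
  · intro u hu v hv h
    have := hε1 (u, v) (mem_product.mpr ⟨hu, hv⟩) h
    simpa only [add_apply, smul_apply, smul_eq_mul] using this

/-- nondegeneracy of the vectors seen from a generic point -/
theorem det_ne_zero_of_generic {d : ℕ} (b : Basis (Fin d) ℝ V) (P : Finset V) (hP : GenPos P)
    (hcard : finrank ℝ V + 1 ≤ P.card) (o : V)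
    (ho : ∀ s : Finset V, s ⊆ P → s.card ≤ finrank ℝ V → o ∉ affineSpan ℝ (s : Set V))
    (z : Fin d → V) (hz : Function.Injective z) (hzP : ∀ q, z q ∈ P) :
    b.det (fun q => z q - o) ≠ 0 := by
  classical
  have hfr : finrank ℝ V = d := by rw [finrank_eq_card_basis b, Fintype.card_fin]
  set s : Finset V := Finset.univ.image z with hs
  have hsP : s ⊆ P := by
    intro v hv
    rw [hs, mem_image] at hv
    obtain ⟨q, -, rfl⟩ := hv
    exact hzP q
  have hsc : s.card = d := by
    rw [hs, Finset.card_image_of_injective _ hz, Finset.card_univ, Fintype.card_fin]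
  have hai : AffineIndependent ℝ (Subtype.val : {x // x ∈ s} → V) :=
    hP.affineIndependent hcard s hsP (by omega)
  have hzai : AffineIndependent ℝ z := by
    let e : Fin d ↪ {x // x ∈ s} :=
      ⟨fun q => ⟨z q, by rw [hs]; exact mem_image_of_mem _ (mem_univ q)⟩, fun p q h => by
        have := congrArg Subtype.val h
        exact hz this⟩
    exact hai.comp_embedding e
  have hli : LinearIndependent ℝ (fun q => z q - o) := by
    rw [Fintype.linearIndependent_iff]
    intro c hc
    have h1 : ∑ q, c q • z q = (∑ q, c q) • o := by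
      have : ∑ q, c q • (z q - o) = ∑ q, c q • z q - (∑ q, c q) • o := by
        rw [Finset.sum_smul, ← Finset.sum_sub_distrib]
        exact Finset.sum_congr rfl fun q _ => smul_sub _ _ _
      rw [this] at hc
      exact sub_eq_zero.mp hc
    by_cases hC : ∑ q, c q = 0
    · rw [hC, zero_smul] at h1
      intro q
      exact (affineIndependent_iff.mp hzai) Finset.univ c hC h1 q (mem_univ q)
    · exfalso
      apply ho s hsP (by omega)
      have hw : ∑ q, (c q / ∑ p, c p) = 1 := by
        rw [← Finset.sum_div, div_self hC]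
      have h2 := affineCombination_mem_affineSpan hw z
      rw [Finset.affineCombination_eq_linear_combination _ _ _ hw] at h2
      have h3 : ∑ q, (c q / ∑ p, c p) • z q = o := by
        have : ∑ q, (c q / ∑ p, c p) • z q = (∑ p, c p)⁻¹ • ∑ q, c q • z q := by
          rw [Finset.smul_sum]
          refine Finset.sum_congr rfl fun q _ => ?_
          rw [smul_smul, div_eq_inv_mul]
        rw [this, h1, smul_smul, inv_mul_cancel₀ hC, one_smul]
      rw [h3] at h2
      have h4 : Set.range z = (s : Set V) := by
        rw [hs, Finset.coe_image, Finset.coe_univ, Set.image_univ]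
      rwa [h4] at h2
  have hspan : Submodule.span ℝ (Set.range (fun q => z q - o)) = ⊤ :=
    hli.span_eq_top_of_card_eq_finrank' (by rw [Fintype.card_fin, hfr])
  exact ((Module.Basis.is_basis_iff_det b).mp ⟨hli, hspan⟩).ne_zero

/-- **Extension order.** -/
theorem exists_extension_order [DecidableEq V] {d : ℕ} (hd : 1 ≤ d) (hfr : finrank ℝ V = d)
    (P Q : Finset V) (hP : GenPos P) (hQP : Q ⊆ P) (hQc : 2 * (d + 1) ≤ Q.card)
    (a : V) (haP : a ∈ P) (X : Fin d → Finset V) (hXP : ∀ q, X q ⊆ P)
    (hX : ∀ p q, p ≠ q → Disjoint (X p) (X q)) (haX : ∀ q, a ∉ X q)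
    (Bad : Finset (Fin d → V))
    (hBad : ∀ z ∈ Fintype.piFinset X, z ∉ Bad → ∃ J : Finset V, 2 * (d + 1) * J.card ≤ Q.card ∧
      ((Q \ J : Finset V) : Set V) ⊆ convexHull ℝ (insert a (Set.range z)))
    (n y : ℕ) (hn : ∀ q, (X q).card ≤ n)
    (hβ : (4 * d + 1) * Bad.card * n ^ d < y ^ d * (Fintype.piFinset X).card) :
    ∃ (ν : V →L[ℝ] ℝ) (c : ℝ), Set.InjOn ν P ∧
      Q.card < 2 * (d + 1) * (Q.filter (fun v => c < ν v)).card ∧
      ∑ q, ((X q).filter (fun v => c < ν v)).card ≤ (d + 1) * (2 ^ d * (d * y)) := by
  classical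
  have hPc : finrank ℝ V + 1 ≤ P.card := by
    have := Finset.card_le_card hQP
    omega
  obtain ⟨o, ho1, ho2⟩ := exists_center P Q (hP.mono hQP) (by rw [hfr]; exact hQc)
  let b : Basis (Fin d) ℝ V := (finBasis ℝ V).reindex (finCongr hfr)
  -- translated data
  let τ : V → V := fun v => v - o
  have hτ : Function.Injective τ := fun u v h => sub_left_injective h
  set X' : Fin d → Finset V := fun q => (X q).image τ with hX'
  let T : (Fin d → V) → (Fin d → V) := fun z q => z q - o
  have hT : Function.Injective T := by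
    intro z z' h
    funext q
    exact hτ (congrFun h q)
  have hpi : Fintype.piFinset X' = (Fintype.piFinset X).image T := by
    ext z'
    rw [mem_image, Fintype.mem_piFinset]
    constructor
    · intro h
      refine ⟨fun q => z' q + o, ?_, ?_⟩
      · rw [Fintype.mem_piFinset]
        intro q
        have := h q
        rw [hX', mem_image] at this
        obtain ⟨v, hv, hvz⟩ := this
        have : z' q + o = v := by rw [← hvz]; simp [τ]
        rw [this]; exact hv
      · funext q; simp [T]
    · rintro ⟨z, hz, rfl⟩ q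
      rw [Fintype.mem_piFinset] at hz
      exact mem_image_of_mem _ (hz q)
  have hinj : ∀ z ∈ Fintype.piFinset X, Function.Injective z := by
    intro z hz p q hpq
    rw [Fintype.mem_piFinset] at hz
    by_contra hne
    exact (Finset.disjoint_left.mp (hX p q hne)) (hz p) (by rw [hpq]; exact hz q)
  have hgen : ∀ z' ∈ Fintype.piFinset X', b.det z' ≠ 0 := by
    intro z' hz'
    rw [hpi, mem_image] at hz'
    obtain ⟨z, hz, rfl⟩ := hz'
    exact det_ne_zero_of_generic b P hP hPc o ho2 z (hinj z hz)
      (fun q => hXP q ((Fintype.mem_piFinset.mp hz) q))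
  have hgena : ∀ z' ∈ Fintype.piFinset X', ∀ q, b.det (Function.update z' q (τ a)) ≠ 0 := by
    intro z' hz' q
    rw [hpi, mem_image] at hz'
    obtain ⟨z, hz, rfl⟩ := hz'
    have e : Function.update (T z) q (τ a) = fun p => (Function.update z q a) p - o := by
      funext p
      by_cases hp : p = q
      · subst hp; simp [τ]
      · simp [T, Function.update_of_ne hp]
    rw [e]
    apply det_ne_zero_of_generic b P hP hPc o ho2
    · intro p p' h
      by_contra hne
      by_cases hp : p = q
      · subst hp
        rw [Function.update_self, Function.update_of_ne (Ne.symm hne)] at h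
        exact haX p' (h ▸ (Fintype.mem_piFinset.mp hz) p')
      · by_cases hp' : p' = q
        · subst hp'
          rw [Function.update_self, Function.update_of_ne hne] at h
          exact haX p (h ▸ (Fintype.mem_piFinset.mp hz) p)
        · rw [Function.update_of_ne hp, Function.update_of_ne hp'] at h
          exact hne (hinj z hz h)
    · intro p
      by_cases hp : p = q
      · subst hp; rw [Function.update_self]; exact haP
      · rw [Function.update_of_ne hp]
        exact hXP p ((Fintype.mem_piFinset.mp hz) p)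
  have hBad' : ∀ z' ∈ Fintype.piFinset X',
      (0 : V) ∉ convexHull ℝ (insert (τ a) (Set.range z')) → z' ∈ Bad.image T := by
    intro z' hz' h0
    rw [hpi, mem_image] at hz'
    obtain ⟨z, hz, rfl⟩ := hz'
    by_contra hzB
    have hzB' : z ∉ Bad := fun h => hzB (mem_image_of_mem _ h)
    obtain ⟨J, hJ1, hJ2⟩ := hBad z hz hzB'
    apply h0
    have h1 : o ∈ convexHull ℝ (insert a (Set.range z)) := by
      have h2 := ho1 (Q \ J) Finset.sdiff_subset (by
        rw [hfr]
        calc 2 * (d + 1) * (Q \ (Q \ J)).card ≤ 2 * (d + 1) * J.card := by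
              apply Nat.mul_le_mul_left
              apply Finset.card_le_card
              intro v hv
              rw [mem_sdiff, mem_sdiff] at hv
              by_contra hvJ
              exact hv.2 ⟨hv.1, hvJ⟩
          _ ≤ Q.card := hJ1)
      exact convexHull_min hJ2 (convex_convexHull ℝ _) (interior_subset h2)
    have h3 : insert (τ a) (Set.range (T z)) = (-o) +ᵥ (insert a (Set.range z)) := by
      ext v
      rw [Set.mem_vadd_set]
      simp only [Set.mem_insert_iff, Set.mem_range, vadd_eq_add]
      constructor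
      · rintro (rfl | ⟨q, rfl⟩)
        · exact ⟨a, Or.inl rfl, by simp only [τ]; abel⟩
        · exact ⟨z q, Or.inr ⟨q, rfl⟩, by simp only [T]; abel⟩
      · rintro ⟨u, (rfl | ⟨q, rfl⟩), rfl⟩
        · left; simp only [τ]; abel
        · right; exact ⟨q, by simp only [T]; abel⟩
    rw [h3, convexHull_vadd, Set.mem_vadd_set]
    exact ⟨o, h1, by simp⟩
  obtain ⟨ν, hν0, hν⟩ := exists_halfspace hd b X' (by
      intro p q hpq
      rw [Finset.disjoint_left]
      intro v hv hv'
      rw [hX', mem_image] at hv hv'
      obtain ⟨u, hu, rfl⟩ := hv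
      obtain ⟨u', hu', h⟩ := hv'
      have : u' = u := hτ h
      subst this
      exact (Finset.disjoint_left.mp (hX p q hpq)) hu hu') (τ a) hgen hgena (Bad.image T) hBad' n y
    (fun q => Finset.card_image_le.trans (hn q)) (by
      calc (4 * d + 1) * (Bad.image T).card * n ^ d ≤ (4 * d + 1) * Bad.card * n ^ d := by
            apply Nat.mul_le_mul_right
            apply Nat.mul_le_mul_left
            exact Finset.card_image_le
        _ < y ^ d * (Fintype.piFinset X).card := hβ
        _ = y ^ d * (Fintype.piFinset X').card := by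
            rw [hpi, Finset.card_image_of_injective _ hT])
  -- refine the functional
  obtain ⟨ν', hν'1, hν'2⟩ := exists_injective_refinement ν (insert o P)
  refine ⟨ν', ν' o, hν'1.mono (by simp), ?_, ?_⟩
  · have h1 := center_halfspace Q o ho1 ν hν0
    rw [hfr] at h1
    refine h1.trans_le (Nat.mul_le_mul_left _ (Finset.card_le_card ?_))
    intro v hv
    rw [mem_filter] at hv ⊢
    exact ⟨hv.1, hν'2 o (mem_insert_self _ _) v (mem_insert_of_mem (hQP hv.1)) hv.2⟩
  · refine le_trans (Finset.sum_le_sum fun q _ => ?_) hν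
    have h2 : ((X q).filter (fun v => ν' o < ν' v)).image τ ⊆ (X' q).filter (fun v => 0 ≤ ν v) := by
      intro v' hv'
      rw [mem_image] at hv'
      obtain ⟨v, hv, rfl⟩ := hv'
      rw [mem_filter] at hv ⊢
      refine ⟨mem_image_of_mem _ hv.1, ?_⟩
      simp only [τ, map_sub]
      by_contra hlt
      push Not at hlt
      have := hν'2 v (mem_insert_of_mem (hXP q hv.1)) o (mem_insert_self _ _) (by linarith)
      linarith [hv.2]
    calc ((X q).filter (fun v => ν' o < ν' v)).card
        = (((X q).filter (fun v => ν' o < ν' v)).image τ).card :=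
          (Finset.card_image_of_injective _ hτ).symm
      _ ≤ _ := Finset.card_le_card h2

end Pool.Agent.Lib.MP_f1849d_co
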