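import Mathlib
import Pool.Agent.Lib.MP_f1849d_co.CenterPoint

/-!
Three-point lemma in all dimensions (barycentric form).
-/

namespace Pool.Agent.Lib.MP_f1849d_co

open Finset Module

variable {V : Type*} [NormedAddCommGroup V] [NormedSpace ℝ V]

theorem GenPos.family {P : Finset V} (hP : GenPos P) {D : ℕ} (hD : D = finrank ℝ V + 1)
    (g : Fin D → V) (hg : Function.Injective g) (hgP : ∀ i, g i ∈ P) : AffineIndependent ℝ g := by
  classical
  set s : Finset V := Finset.univ.image g with hs
  have hsP : s ⊆ P := by
    intro v hv
    rw [hs, mem_image] at hv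
    obtain ⟨q, -, rfl⟩ := hv
    exact hgP q
  have hsc : s.card = finrank ℝ V + 1 := by
    rw [hs, Finset.card_image_of_injective _ hg, Finset.card_univ, Fintype.card_fin, hD]
  have hai := hP s hsP hsc
  let e : Fin D ↪ {x // x ∈ s} :=
    ⟨fun q => ⟨g q, by rw [hs]; exact mem_image_of_mem _ (mem_univ q)⟩, fun p q h => by
      have := congrArg Subtype.val h
      exact hg this⟩
  exact hai.comp_embedding e

theorem convexHull_range_weights {ι : Type*} [Fintype ι] (z : ι → V) (x : V)
    (hx : x ∈ convexHull ℝ (Set.range z)) :
    ∃ w : ι → ℝ, (∀ i, 0 ≤ w i) ∧ ∑ i, w i = 1 ∧ ∑ i, w i • z i = x := by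
  classical
  have hsub : convexHull ℝ (Set.range z) ⊆
      (Fintype.linearCombination ℝ z) '' (stdSimplex ℝ ι) := by
    apply convexHull_min
    · rintro _ ⟨i, rfl⟩
      refine ⟨Pi.single i 1, single_mem_stdSimplex ℝ i, ?_⟩
      rw [Fintype.linearCombination_apply_single, one_smul]
    · exact (convex_stdSimplex ℝ ι).linear_image _
  obtain ⟨w, hw, rfl⟩ := hsub hx
  exact ⟨w, hw.1, hw.2, by rw [Fintype.linearCombination_apply]⟩

/-- in general position all barycentric coordinates of an inner point are positive -/
theorem GenPos.pos_weights {P : Finset V} (hP : GenPos P) {D : ℕ} (hD : D = finrank ℝ V + 1)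
    (g : Fin D → V) (hg : Function.Injective g) (hgP : ∀ i, g i ∈ P) (w : V) (hwP : w ∈ P)
    (hw : ∀ i, g i ≠ w) (hconv : w ∈ convexHull ℝ (Set.range g)) :
    ∃ c : Fin D → ℝ, (∀ i, 0 < c i) ∧ ∑ i, c i = 1 ∧ ∑ i, c i • g i = w := by
  classical
  obtain ⟨c, hc0, hc1, hcw⟩ := convexHull_range_weights g w hconv
  refine ⟨c, fun i => ?_, hc1, hcw⟩
  rcases (hc0 i).lt_or_eq with h | h
  · exact h
  exfalso
  have hinj : Function.Injective (Function.update g i w) := by
    intro p q hpq
    by_contra hne
    by_cases hp : p = i
    · subst hp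
      rw [Function.update_self, Function.update_of_ne (Ne.symm hne)] at hpq
      exact hw q hpq.symm
    · by_cases hq : q = i
      · subst hq
        rw [Function.update_self, Function.update_of_ne hne] at hpq
        exact hw p hpq
      · rw [Function.update_of_ne hp, Function.update_of_ne hq] at hpq
        exact hne (hg hpq)
  have hmem : ∀ j, Function.update g i w j ∈ P := by
    intro j
    by_cases hj : j = i
    · subst hj; rw [Function.update_self]; exact hwP
    · rw [Function.update_of_ne hj]; exact hgP j
  have hai := hP.family hD _ hinj hmem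
  have hsum : ∑ j, Function.update c i (-1) j = 0 := by
    rw [← Finset.add_sum_erase _ _ (mem_univ i), Function.update_self]
    have h1 : ∑ j ∈ univ.erase i, Function.update c i (-1) j = ∑ j ∈ univ.erase i, c j :=
      Finset.sum_congr rfl fun j hj => by
        rw [Function.update_of_ne (Finset.ne_of_mem_erase hj)]
    rw [h1]
    have h2 := Finset.add_sum_erase univ c (mem_univ i)
    linarith
  have hsum2 : ∑ j, Function.update c i (-1) j • Function.update g i w j = 0 := by
    rw [← Finset.add_sum_erase _ _ (mem_univ i), Function.update_self, Function.update_self]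
    have h1 : ∑ j ∈ univ.erase i, Function.update c i (-1) j • Function.update g i w j
        = ∑ j ∈ univ.erase i, c j • g j :=
      Finset.sum_congr rfl fun j hj => by
        rw [Function.update_of_ne (Finset.ne_of_mem_erase hj),
          Function.update_of_ne (Finset.ne_of_mem_erase hj)]
    rw [h1]
    have h2 := Finset.add_sum_erase univ (fun j => c j • g j) (mem_univ i)
    simp only [← h, zero_smul, zero_add] at h2
    rw [h2, hcw, neg_smul, one_smul, neg_add_cancel]
  have := (affineIndependent_iff.mp hai) Finset.univ _ hsum hsum2 i (mem_univ i)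
  rw [Function.update_self] at this
  norm_num at this

/-- **Three-point lemma.** `h` are the heads of an ordinary node, `z` replaces the head `x` or
the head `q`; no point `w` lies in all three simplices. -/
theorem three_point {P : Finset V} (hP : GenPos P) {D : ℕ} (hD : D = finrank ℝ V + 1)
    (h : Fin D → V) (hinj : Function.Injective h) (hhP : ∀ i, h i ∈ P)
    (z : V) (hzP : z ∈ P) (hz : ∀ i, h i ≠ z) (w : V) (hwP : w ∈ P) (hw : ∀ i, h i ≠ w)
    (hwz : z ≠ w) (x q : Fin D) (hxq : x ≠ q)
    (h1 : w ∈ convexHull ℝ (Set.range h))
    (h2 : w ∈ convexHull ℝ (Set.range (Function.update h x z)))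
    (h3 : w ∈ convexHull ℝ (Set.range (Function.update h q z))) : False := by
  classical
  have hup : ∀ p : Fin D, Function.Injective (Function.update h p z) ∧
      (∀ i, Function.update h p z i ∈ P) ∧ ∀ i, Function.update h p z i ≠ w := by
    intro p
    refine ⟨?_, ?_, ?_⟩
    · intro a b hab
      by_contra hne
      by_cases ha : a = p
      · subst ha
        rw [Function.update_self, Function.update_of_ne (Ne.symm hne)] at hab
        exact hz b hab.symm
      · by_cases hb : b = p
        · subst hb
          rw [Function.update_self, Function.update_of_ne hne] at hab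
          exact hz a hab
        · rw [Function.update_of_ne ha, Function.update_of_ne hb] at hab
          exact hne (hinj hab)
    · intro i
      by_cases hi : i = p
      · subst hi; rw [Function.update_self]; exact hzP
      · rw [Function.update_of_ne hi]; exact hhP i
    · intro i
      by_cases hi : i = p
      · subst hi; rw [Function.update_self]; exact hwz
      · rw [Function.update_of_ne hi]; exact hw i
  obtain ⟨l, hl0, hl1, hlw⟩ := hP.pos_weights hD h hinj hhP w hwP hw h1
  obtain ⟨m, hm0, hm1, hmw⟩ := hP.pos_weights hD _ (hup x).1 (hup x).2.1 w hwP (hup x).2.2 h2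
  obtain ⟨n, hn0, hn1, hnw⟩ := hP.pos_weights hD _ (hup q).1 (hup q).2.1 w hwP (hup q).2.2 h3
  have hai := hP.family hD h hinj hhP
  -- write the two relations for `z`
  have em : m x • z = ∑ i, (l i - if i = x then 0 else m i) • h i := by
    have e1 : ∑ i, m i • Function.update h x z i = m x • z + ∑ i ∈ univ.erase x, m i • h i := by
      rw [← Finset.add_sum_erase _ _ (mem_univ x), Function.update_self]
      congr 1
      exact Finset.sum_congr rfl fun j hj => by
        rw [Function.update_of_ne (Finset.ne_of_mem_erase hj)]
    have e2 : ∑ i, (if i = x then 0 else m i) • h i = ∑ i ∈ univ.erase x, m i • h i := by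
      rw [← Finset.add_sum_erase _ _ (mem_univ x), if_pos rfl, zero_smul, zero_add]
      exact Finset.sum_congr rfl fun j hj => by
        rw [if_neg (Finset.ne_of_mem_erase hj)]
    simp_rw [sub_smul]
    rw [Finset.sum_sub_distrib, hlw, e2]
    rw [e1] at hmw
    rw [← hmw]; abel
  have en : n q • z = ∑ i, (l i - if i = q then 0 else n i) • h i := by
    have e1 : ∑ i, n i • Function.update h q z i = n q • z + ∑ i ∈ univ.erase q, n i • h i := by
      rw [← Finset.add_sum_erase _ _ (mem_univ q), Function.update_self]
      congr 1
      exact Finset.sum_congr rfl fun j hj => by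
        rw [Function.update_of_ne (Finset.ne_of_mem_erase hj)]
    have e2 : ∑ i, (if i = q then 0 else n i) • h i = ∑ i ∈ univ.erase q, n i • h i := by
      rw [← Finset.add_sum_erase _ _ (mem_univ q), if_pos rfl, zero_smul, zero_add]
      exact Finset.sum_congr rfl fun j hj => by
        rw [if_neg (Finset.ne_of_mem_erase hj)]
    simp_rw [sub_smul]
    rw [Finset.sum_sub_distrib, hlw, e2]
    rw [e1] at hnw
    rw [← hnw]; abel
  -- sums of the coefficients
  have sm : ∑ i, (l i - if i = x then 0 else m i) = m x := by
    rw [Finset.sum_sub_distrib, hl1]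
    have : ∑ i, (if i = x then 0 else m i) = 1 - m x := by
      rw [← hm1, ← Finset.add_sum_erase _ _ (mem_univ x), if_pos rfl, zero_add,
        ← Finset.add_sum_erase _ m (mem_univ x)]
      rw [add_sub_cancel_left]
      exact Finset.sum_congr rfl fun j hj => by
        rw [if_neg (Finset.ne_of_mem_erase hj)]
    rw [this]; ring
  have sn : ∑ i, (l i - if i = q then 0 else n i) = n q := by
    rw [Finset.sum_sub_distrib, hl1]
    have : ∑ i, (if i = q then 0 else n i) = 1 - n q := by
      rw [← hn1, ← Finset.add_sum_erase _ _ (mem_univ q), if_pos rfl, zero_add,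
        ← Finset.add_sum_erase _ n (mem_univ q)]
      rw [add_sub_cancel_left]
      exact Finset.sum_congr rfl fun j hj => by
        rw [if_neg (Finset.ne_of_mem_erase hj)]
    rw [this]; ring
  -- uniqueness
  have huniq := (affineIndependent_iff.mp hai) Finset.univ
    (fun i => n q * (l i - if i = x then 0 else m i) - m x * (l i - if i = q then 0 else n i))
    (by
      rw [Finset.sum_sub_distrib, ← Finset.mul_sum, ← Finset.mul_sum, sm, sn]; ring)
    (by
      simp_rw [sub_smul, mul_smul]
      rw [Finset.sum_sub_distrib, ← Finset.smul_sum, ← Finset.smul_sum, ← em, ← en, smul_smul,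
        smul_smul, mul_comm, sub_self])
  have ux := huniq x (mem_univ x)
  have uq := huniq q (mem_univ q)
  simp only [if_true, if_neg hxq, if_neg (Ne.symm hxq), sub_zero] at ux uq
  have hlx := hl0 x
  have hlq := hl0 q
  have hmx := hm0 x
  have hmq := hm0 q
  have hnx := hn0 x
  have hnq := hn0 q
  -- `(m x - n q) * l x = m x * n x > 0` and `(n q - m x) * l q = n q * m q > 0`
  have p1 : (m x - n q) * l x = m x * n x := by linarith
  have p2 : (n q - m x) * l q = n q * m q := by linarith
  have q1 : 0 < (m x - n q) * l x := by rw [p1]; exact mul_pos hmx hnx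
  have q2 : 0 < (n q - m x) * l q := by rw [p2]; exact mul_pos hnq hmq
  have r1 : 0 < m x - n q := pos_of_mul_pos_left q1 hlx.le
  have r2 : 0 < n q - m x := pos_of_mul_pos_left q2 hlq.le
  linarith

end Pool.Agent.Lib.MP_f1849d_co
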