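import Mathlib
import Pool.Agent.Lib.MP_f1849d_co.HalfSpace
import Pool.Agent.Lib.MP_f1849d_co.CenterPoint
import Pool.Agent.Lib.MP_f1849d_co.ExtensionOrder
import Pool.Agent.Lib.MP_f1849d_co.ThreePoint

/-!
The operator `ext` (vertices of the convex hull of a finite set) and its six properties
E1 - E6 used in the combinatorial part.
-/

namespace Pool.Agent.Lib.MP_f1849d_co

open Finset Module

variable {V : Type*} [NormedAddCommGroup V] [NormedSpace ℝ V]

open Classical in
/-- the vertices of the convex hull of a finite set -/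
noncomputable def ext (S : Finset V) : Finset V :=
  S.filter (fun x => x ∉ convexHull ℝ ((S : Set V) \ {x}))

theorem mem_ext {S : Finset V} {x : V} :
    x ∈ ext S ↔ x ∈ S ∧ x ∉ convexHull ℝ ((S : Set V) \ {x}) := by
  classical
  unfold ext
  rw [mem_filter]

/-- E1 -/
theorem ext_subset (S : Finset V) : ext S ⊆ S := fun _ hx => (mem_ext.mp hx).1

/-- E2 -/
theorem ext_mono {S T : Finset V} {e : V} (he : e ∈ ext S) (heT : e ∈ T) (hTS : T ⊆ S) :
    e ∈ ext T := by
  rw [mem_ext] at he ⊢
  refine ⟨heT, fun h => he.2 ?_⟩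
  refine convexHull_mono ?_ h
  exact Set.sdiff_subset_sdiff_left (by exact_mod_cast hTS)

/-- a finite set is contained in the convex hull of its vertices -/
theorem subset_convexHull_ext (S : Finset V) :
    (S : Set V) ⊆ convexHull ℝ ((ext S : Finset V) : Set V) := by
  have hcomp : IsCompact (convexHull ℝ (S : Set V)) := (Finset.finite_toSet S).isCompact_convexHull ℝ
  have hKM := closure_convexHull_extremePoints hcomp (convex_convexHull ℝ (S : Set V))
  have hsub : (convexHull ℝ (S : Set V)).extremePoints ℝ ⊆ ((ext S : Finset V) : Set V) := by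
    intro x hx
    rw [Finset.mem_coe, mem_ext]
    have hxS : x ∈ (S : Set V) := extremePoints_convexHull_subset hx
    refine ⟨by exact_mod_cast hxS, fun h => ?_⟩
    rw [(convex_convexHull ℝ (S : Set V)).mem_extremePoints_iff_mem_sdiff_convexHull_sdiff] at hx
    apply hx.2
    refine convexHull_mono ?_ h
    exact Set.sdiff_subset_sdiff_left (subset_convexHull ℝ _)
  have hcl : IsClosed (convexHull ℝ ((ext S : Finset V) : Set V)) :=
    (Finset.finite_toSet _).isClosed_convexHull ℝ
  calc (S : Set V) ⊆ convexHull ℝ (S : Set V) := subset_convexHull ℝ _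
    _ = closure (convexHull ℝ ((convexHull ℝ (S : Set V)).extremePoints ℝ)) := hKM.symm
    _ ⊆ closure (convexHull ℝ ((ext S : Finset V) : Set V)) :=
        closure_mono (convexHull_mono hsub)
    _ = convexHull ℝ ((ext S : Finset V) : Set V) := hcl.closure_eq

/-- E1 -/
theorem ext_nonempty {S : Finset V} (hS : S.Nonempty) : (ext S).Nonempty := by
  rw [Finset.nonempty_iff_ne_empty]
  intro h
  obtain ⟨x, hx⟩ := hS
  have := subset_convexHull_ext S (Finset.mem_coe.mpr hx)
  rw [h, Finset.coe_empty, convexHull_empty] at this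
  exact this

/-- E1: in general position there are at least `D` vertices -/
theorem card_ext_ge [FiniteDimensional ℝ V] {S : Finset V} (hS : GenPos S)
    (hc : finrank ℝ V + 1 ≤ S.card) : finrank ℝ V + 1 ≤ (ext S).card := by
  by_contra hlt
  push Not at hlt
  obtain ⟨v, hv⟩ := interior_convexHull_nonempty_of_genPos S hS hc
  have h1 : (convexHull ℝ (S : Set V)) ⊆ convexHull ℝ ((ext S : Finset V) : Set V) :=
    convexHull_min (subset_convexHull_ext S) (convex_convexHull ℝ _)
  have h2 : affineSpan ℝ ((ext S : Finset V) : Set V) = ⊤ :=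
    affineSpan_eq_top_of_nonempty_interior ⟨v, interior_mono h1 hv⟩
  exact affineSpan_ne_top_of_card_le (ext S) (by omega) h2

/-- E4 -/
theorem not_mem_ext_of_covered {Z Q X : Finset V} {e : V} (heZ : e ∈ Z) (hZ : ext Z ⊆ Q)
    (hQ : Q ⊆ X) (heQ : e ∉ Q) : e ∉ ext X := by
  intro he
  rw [mem_ext] at he
  apply he.2
  have h1 : e ∈ convexHull ℝ ((ext Z : Finset V) : Set V) :=
    subset_convexHull_ext Z (Finset.mem_coe.mpr heZ)
  refine convexHull_mono ?_ h1
  intro v hv
  have hvQ : v ∈ Q := hZ (by exact_mod_cast hv)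
  refine ⟨by exact_mod_cast hQ hvQ, ?_⟩
  intro hve
  rw [Set.mem_singleton_iff] at hve
  exact heQ (hve ▸ hvQ)

/-- E5: three-point lemma for `ext` -/
theorem three_point_ext [DecidableEq V] {P : Finset V} (hP : GenPos P) {D : ℕ}
    (hD : D = finrank ℝ V + 1)
    (h : Fin D → V) (hinj : Function.Injective h) (hhP : ∀ i, h i ∈ P)
    (z : V) (hzP : z ∈ P) (hz : ∀ i, h i ≠ z) (o : V) (hoP : o ∈ P) (ho : ∀ i, h i ≠ o)
    (hoz : z ≠ o) (x q : Fin D) (hxq : x ≠ q) (Z1 Z2 Z3 : Finset V)
    (h1 : ext Z1 ⊆ univ.image h) (h2 : ext Z2 ⊆ univ.image (Function.update h x z))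
    (h3 : ext Z3 ⊆ univ.image (Function.update h q z))
    (o1 : o ∈ Z1) (o2 : o ∈ Z2) (o3 : o ∈ Z3) : False := by
  have key : ∀ (Z : Finset V) (g : Fin D → V), ext Z ⊆ univ.image g → o ∈ Z →
      o ∈ convexHull ℝ (Set.range g) := by
    intro Z g hZ hoZ
    refine convexHull_mono ?_ (subset_convexHull_ext Z (Finset.mem_coe.mpr hoZ))
    intro v hv
    have := hZ (by exact_mod_cast hv)
    rw [mem_image] at this
    obtain ⟨i, -, hi⟩ := this
    exact ⟨i, hi⟩
  exact three_point hP hD h hinj hhP z hzP hz o hoP ho hoz x q hxq (key Z1 h h1 o1)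
    (key Z2 _ h2 o2) (key Z3 _ h3 o3)

section sign

variable {d : ℕ}

/-- all transversals of the classes see `0` together with `a`: then `0` is not in the convex
hull of the classes -/
theorem zero_notMem_convexHull_classes [DecidableEq V] (hd : 1 ≤ d) (b : Basis (Fin d) ℝ V)
    (X : Fin d → Finset V) (hXne : ∀ q, (X q).Nonempty)
    (hX : ∀ p q, p ≠ q → Disjoint (X p) (X q)) (a : V)
    (hgen : ∀ z ∈ Fintype.piFinset X, b.det z ≠ 0)
    (hgena : ∀ z ∈ Fintype.piFinset X, ∀ q, b.det (Function.update z q a) ≠ 0)
    (hall : ∀ z ∈ Fintype.piFinset X, (0 : V) ∈ convexHull ℝ (insert a (Set.range z))) :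
    (0 : V) ∉ convexHull ℝ ((Finset.univ.biUnion X : Finset V) : Set V) := by
  classical
  intro h0
  -- all determinants have the same sign
  set Gp := (Fintype.piFinset X).filter (fun z => 0 < b.det z) with hGp
  set Gm := (Fintype.piFinset X).filter (fun z => b.det z < 0) with hGm
  have hmin := box_two_sides X Gp Gm ∅ (Finset.filter_subset _ _) (Finset.filter_subset _ _)
    (by
      rw [Finset.disjoint_left]
      intro z hz hz'
      rw [hGp, mem_filter] at hz
      rw [hGm, mem_filter] at hz'
      linarith [hz.2, hz'.2])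
    (by
      intro z hz
      rcases lt_or_gt_of_ne (hgen z hz) with h | h
      · right; left; rw [hGm, mem_filter]; exact ⟨hz, h⟩
      · left; rw [hGp, mem_filter]; exact ⟨hz, h⟩)
    (by
      intro z hz q v hzv
      rw [hGp, mem_filter] at hz
      rw [hGm, mem_filter] at hzv
      have h1 := good_sign hd b.det z a (hgen z hz.1) (hgena z hz.1) (hall z hz.1) q
      have h2 := good_sign hd b.det _ a (hgen _ hzv.1) (hgena _ hzv.1) (hall _ hzv.1) q
      rw [Function.update_idem] at h2
      have h3 := hz.2
      have h4 := hzv.2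
      have h5 : b.det (Function.update z q a) < 0 := by
        by_contra h
        push Not at h
        have := mul_nonneg h h3.le
        linarith
      have := mul_pos_of_neg_of_neg h5 h4
      linarith)
  rw [Finset.card_empty, zero_mul, mul_zero, Nat.le_zero, Nat.mul_eq_zero, Finset.card_eq_zero,
    Finset.card_eq_zero] at hmin
  -- an alternating map positive on all transversals
  obtain ⟨f, hf⟩ : ∃ f : V [⋀^Fin d]→ₗ[ℝ] ℝ, ∀ z ∈ Fintype.piFinset X, 0 < f z := by
    rcases hmin with h | h
    · refine ⟨-b.det, fun z hz => ?_⟩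
      rw [AlternatingMap.neg_apply]
      rcases lt_or_gt_of_ne (hgen z hz) with h' | h'
      · linarith
      · have : z ∈ Gp := by rw [hGp, mem_filter]; exact ⟨hz, h'⟩
        rw [h] at this
        exact absurd this (Finset.notMem_empty _)
    · refine ⟨b.det, fun z hz => ?_⟩
      rcases lt_or_gt_of_ne (hgen z hz) with h' | h'
      · have : z ∈ Gm := by rw [hGm, mem_filter]; exact ⟨hz, h'⟩
        rw [h] at this
        exact absurd this (Finset.notMem_empty _)
      · exact h'
  -- a balanced set
  have : FiniteDimensional ℝ V := b.finiteDimensional_of_finite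
  obtain ⟨S, hSX, hSne, -, w, hw, hw0⟩ := exists_balanced _ h0
  set A : Finset (Fin d) := Finset.univ.filter (fun q => (S ∩ X q).Nonempty) with hA
  have hAmem : ∀ q, q ∈ A ↔ (S ∩ X q).Nonempty := fun q => by simp [hA]
  have hAne : A.Nonempty := by
    obtain ⟨v, hv⟩ := hSne
    have := hSX hv
    rw [mem_biUnion] at this
    obtain ⟨q, -, hq⟩ := this
    exact ⟨q, (hAmem q).mpr ⟨v, mem_inter.mpr ⟨hv, hq⟩⟩⟩
  -- the vectors `z q`
  let T : Fin d → Finset V := fun q => if q ∈ A then S ∩ X q else {(hXne q).choose}
  let c : Fin d → V → ℝ := fun q u => if q ∈ A then w u else 1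
  have hTX : ∀ v ∈ Fintype.piFinset T, v ∈ Fintype.piFinset X := by
    intro v hv
    rw [Fintype.mem_piFinset] at hv ⊢
    intro q
    have := hv q
    by_cases hq : q ∈ A
    · simp only [T, if_pos hq] at this
      exact (mem_inter.mp this).2
    · simp only [T, if_neg hq, mem_singleton] at this
      rw [this]; exact (hXne q).choose_spec
  have hTne : (Fintype.piFinset T).Nonempty := by
    rw [Fintype.piFinset_nonempty]
    intro q
    by_cases hq : q ∈ A
    · simp only [T, if_pos hq]
      exact (hAmem q).mp hq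
    · simp only [T, if_neg hq]
      exact singleton_nonempty _
  have hexp := f.toMultilinearMap.map_sum_finset (fun q (u : V) => c q u • u) T
  have hzero : f (fun q => ∑ u ∈ T q, c q u • u) = 0 := by
    apply f.map_linearDependent
    intro hli
    have hs : ∑ q ∈ A, (1 : ℝ) • (∑ u ∈ T q, c q u • u) = 0 := by
      have hpart : S = A.biUnion (fun q => S ∩ X q) := by
        ext v
        constructor
        · intro hv
          have := hSX hv
          rw [mem_biUnion] at this ⊢
          obtain ⟨q, -, hq⟩ := this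
          exact ⟨q, (hAmem q).mpr ⟨v, mem_inter.mpr ⟨hv, hq⟩⟩, mem_inter.mpr ⟨hv, hq⟩⟩
        · intro hv
          rw [mem_biUnion] at hv
          obtain ⟨q, -, hq⟩ := hv
          exact (mem_inter.mp hq).1
      have hsum : ∑ v ∈ A.biUnion (fun q => S ∩ X q), w v • v
          = ∑ q ∈ A, ∑ v ∈ S ∩ X q, w v • v := by
        apply Finset.sum_biUnion
        intro p _ q _ hpq
        exact (hX p q hpq).mono Finset.inter_subset_right Finset.inter_subset_right
      rw [← hpart, hw0] at hsum
      rw [hsum]
      refine Finset.sum_congr rfl fun q hq => ?_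
      rw [one_smul]
      simp only [T, c, if_pos hq]
    obtain ⟨q0, hq0⟩ := hAne
    have := (linearIndependent_iff'.mp hli) A (fun _ => (1 : ℝ)) hs q0 hq0
    exact one_ne_zero this
  have hpos : 0 < ∑ v ∈ Fintype.piFinset T, f (fun q => c q (v q) • v q) := by
    apply Finset.sum_pos _ hTne
    intro v hv
    have e2 : f (fun q => c q (v q) • v q) = (∏ q, c q (v q)) * f v := by
      have := f.toMultilinearMap.map_smul_univ (fun q => c q (v q)) v
      simpa [smul_eq_mul] using this
    rw [e2]
    apply mul_pos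
    · apply Finset.prod_pos
      intro q _
      simp only [c]
      split_ifs with hq
      · apply hw
        have := (Fintype.mem_piFinset.mp hv) q
        simp only [T, if_pos hq] at this
        exact (mem_inter.mp this).1
      · exact one_pos
    · exact hf v (hTX v hv)
  have hexp' : f (fun q => ∑ u ∈ T q, c q u • u)
      = ∑ v ∈ Fintype.piFinset T, f (fun q => c q (v q) • v q) := hexp
  rw [hzero] at hexp'
  rw [← hexp'] at hpos
  exact lt_irrefl _ hpos

/-- nondegeneracy of the vectors seen from a point of `P` -/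
theorem det_ne_zero_of_mem (b : Basis (Fin d) ℝ V) (P : Finset V) (hP : GenPos P) (o : V)
    (hoP : o ∈ P) (z : Fin d → V) (hz : Function.Injective z) (hzP : ∀ q, z q ∈ P)
    (hzo : ∀ q, z q ≠ o) : b.det (fun q => z q - o) ≠ 0 := by
  classical
  have hfr : finrank ℝ V = d := by rw [finrank_eq_card_basis b, Fintype.card_fin]
  have : FiniteDimensional ℝ V := b.finiteDimensional_of_finite
  have hinj : Function.Injective (Fin.cons o z : Fin (d + 1) → V) := by
    rw [Fin.cons_injective_iff]
    refine ⟨?_, hz⟩
    rintro ⟨q, hq⟩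
    exact hzo q hq
  have hmem : ∀ i, (Fin.cons o z : Fin (d + 1) → V) i ∈ P := by
    intro i
    refine Fin.cases ?_ (fun q => ?_) i
    · simpa using hoP
    · simpa using hzP q
  have hai := hP.family (by rw [hfr]) _ hinj hmem
  have hli : LinearIndependent ℝ (fun q => z q - o) := by
    rw [Fintype.linearIndependent_iff]
    intro c hc
    have h1 := (affineIndependent_iff.mp hai) Finset.univ
      (Fin.cons (-∑ q, c q) c : Fin (d + 1) → ℝ)
      (by rw [Fin.sum_univ_succ]; simp)
      (by
        rw [Fin.sum_univ_succ]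
        simp only [Fin.cons_zero, Fin.cons_succ]
        rw [← hc, neg_smul, Finset.sum_smul, ← Finset.sum_neg_distrib, ← Finset.sum_add_distrib]
        refine Finset.sum_congr rfl fun q _ => ?_
        rw [smul_sub]; abel)
    intro q
    have := h1 q.succ (mem_univ _)
    simpa using this
  have hspan : Submodule.span ℝ (Set.range (fun q => z q - o)) = ⊤ :=
    hli.span_eq_top_of_card_eq_finrank' (by rw [Fintype.card_fin, hfr])
  exact ((Module.Basis.is_basis_iff_det b).mp ⟨hli, hspan⟩).ne_zero

open scoped Pointwise in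
/-- E6: if all transversals of the classes `X m` (`m ≠ l`) see `o` together with `a`, then no
set containing `o` has all its vertices in the classes -/
theorem sign_ext [DecidableEq V] [FiniteDimensional ℝ V] (hd : 1 ≤ d) (hfr : finrank ℝ V = d)
    {P : Finset V} (hP : GenPos P) (l : Fin (d + 1)) (X : Fin (d + 1) → Finset V)
    (hXP : ∀ m, m ≠ l → X m ⊆ P) (hXne : ∀ m, m ≠ l → (X m).Nonempty)
    (hX : ∀ m m', m ≠ l → m' ≠ l → m ≠ m' → Disjoint (X m) (X m'))
    (a : V) (haP : a ∈ P) (haX : ∀ m, m ≠ l → a ∉ X m)
    (o : V) (hoP : o ∈ P) (hoX : ∀ m, m ≠ l → o ∉ X m) (hoa : a ≠ o)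
    (hall : ∀ y : Fin (d + 1) → V, y l = a → (∀ m, m ≠ l → y m ∈ X m) →
      ∃ Z : Finset V, ext Z ⊆ univ.image y ∧ o ∈ Z)
    (F : Finset V) (hF : ext F ⊆ (univ.erase l).biUnion X) : o ∉ F := by
  classical
  intro hoF
  let b : Basis (Fin d) ℝ V := (finBasis ℝ V).reindex (finCongr hfr)
  let τ : V → V := fun v => v - o
  have hτ : Function.Injective τ := fun u v h => sub_left_injective h
  set X' : Fin d → Finset V := fun q => (X (l.succAbove q)).image τ with hX'
  -- lifting a transversal
  have hlift : ∀ z' ∈ Fintype.piFinset X', ∃ z : Fin d → V, (∀ q, z q ∈ X (l.succAbove q)) ∧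
      z' = fun q => z q - o := by
    intro z' hz'
    rw [Fintype.mem_piFinset] at hz'
    have : ∀ q, ∃ v, v ∈ X (l.succAbove q) ∧ z' q = v - o := by
      intro q
      have := hz' q
      rw [hX', mem_image] at this
      obtain ⟨v, hv, hvz⟩ := this
      exact ⟨v, hv, hvz.symm⟩
    choose z hz1 hz2 using this
    exact ⟨z, hz1, funext hz2⟩
  have hinj : ∀ z : Fin d → V, (∀ q, z q ∈ X (l.succAbove q)) → Function.Injective z := by
    intro z hz p q hpq
    by_contra hne
    have h1 : l.succAbove p ≠ l.succAbove q := fun h => hne (Fin.succAbove_right_injective h)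
    have h2 := hX _ _ (Fin.succAbove_ne l p) (Fin.succAbove_ne l q) h1
    exact (Finset.disjoint_left.mp h2) (hz p) (hpq ▸ hz q)
  have hgen : ∀ z' ∈ Fintype.piFinset X', b.det z' ≠ 0 := by
    intro z' hz'
    obtain ⟨z, hz, rfl⟩ := hlift z' hz'
    apply det_ne_zero_of_mem b P hP o hoP z (hinj z hz)
      (fun q => hXP _ (Fin.succAbove_ne l q) (hz q))
    intro q h
    exact hoX _ (Fin.succAbove_ne l q) (h ▸ hz q)
  have hgena : ∀ z' ∈ Fintype.piFinset X', ∀ q, b.det (Function.update z' q (τ a)) ≠ 0 := by
    intro z' hz' q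
    obtain ⟨z, hz, rfl⟩ := hlift z' hz'
    have e : Function.update (fun q => z q - o) q (τ a)
        = fun p => (Function.update z q a) p - o := by
      funext p
      by_cases hp : p = q
      · subst hp; simp [τ]
      · simp [Function.update_of_ne hp]
    rw [e]
    apply det_ne_zero_of_mem b P hP o hoP
    · intro p p' h
      by_contra hne
      by_cases hp : p = q
      · subst hp
        rw [Function.update_self, Function.update_of_ne (Ne.symm hne)] at h
        exact haX _ (Fin.succAbove_ne l p') (h ▸ hz p')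
      · by_cases hp' : p' = q
        · subst hp'
          rw [Function.update_self, Function.update_of_ne hne] at h
          exact haX _ (Fin.succAbove_ne l p) (h ▸ hz p)
        · rw [Function.update_of_ne hp, Function.update_of_ne hp'] at h
          exact hne (hinj z hz h)
    · intro p
      by_cases hp : p = q
      · subst hp; rw [Function.update_self]; exact haP
      · rw [Function.update_of_ne hp]
        exact hXP _ (Fin.succAbove_ne l p) (hz p)
    · intro p
      by_cases hp : p = q
      · subst hp; rw [Function.update_self]; exact hoa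
      · rw [Function.update_of_ne hp]
        intro h
        exact hoX _ (Fin.succAbove_ne l p) (h ▸ hz p)
  have htrans : ∀ s : Set V, o ∈ convexHull ℝ s → (0 : V) ∈ convexHull ℝ (τ '' s) := by
    intro s hs
    have h3 : τ '' s = (-o) +ᵥ s := by
      ext v
      rw [Set.mem_vadd_set, Set.mem_image]
      constructor
      · rintro ⟨u, hu, rfl⟩; exact ⟨u, hu, by simp only [τ, vadd_eq_add]; abel⟩
      · rintro ⟨u, hu, rfl⟩; exact ⟨u, hu, by simp only [τ, vadd_eq_add]; abel⟩
    rw [h3, convexHull_vadd, Set.mem_vadd_set]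
    exact ⟨o, hs, by simp⟩
  have hall' : ∀ z' ∈ Fintype.piFinset X',
      (0 : V) ∈ convexHull ℝ (insert (τ a) (Set.range z')) := by
    intro z' hz'
    obtain ⟨z, hz, rfl⟩ := hlift z' hz'
    let y : Fin (d + 1) → V := l.insertNth a z
    obtain ⟨Z, hZ1, hZ2⟩ := hall y (by simp [y]) (by
      intro m hm
      obtain ⟨q, rfl⟩ := Fin.exists_succAbove_eq hm
      simp only [y, Fin.insertNth_apply_succAbove]
      exact hz q)
    have h1 : o ∈ convexHull ℝ (insert a (Set.range z)) := by
      refine convexHull_mono ?_ (subset_convexHull_ext Z (Finset.mem_coe.mpr hZ2))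
      intro v hv
      have := hZ1 (by exact_mod_cast hv)
      rw [mem_image] at this
      obtain ⟨i, -, rfl⟩ := this
      by_cases hi : i = l
      · subst hi; left; simp [y]
      · obtain ⟨q, rfl⟩ := Fin.exists_succAbove_eq hi
        right
        exact ⟨q, by simp [y]⟩
    refine convexHull_mono ?_ (htrans _ h1)
    rintro _ ⟨v, hv, rfl⟩
    rcases hv with rfl | ⟨q, rfl⟩
    · left; rfl
    · right; exact ⟨q, rfl⟩
  have hmain := zero_notMem_convexHull_classes hd b X' (by
      intro q
      rw [hX']
      exact (hXne _ (Fin.succAbove_ne l q)).image _) (by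
      intro p q hpq
      rw [Finset.disjoint_left]
      intro v hv hv'
      rw [hX', mem_image] at hv hv'
      obtain ⟨u, hu, rfl⟩ := hv
      obtain ⟨u', hu', h⟩ := hv'
      have : u' = u := hτ h
      subst this
      have h1 : l.succAbove p ≠ l.succAbove q := fun h => hpq (Fin.succAbove_right_injective h)
      exact (Finset.disjoint_left.mp (hX _ _ (Fin.succAbove_ne l p) (Fin.succAbove_ne l q) h1))
        hu hu') (τ a) hgen hgena hall'
  apply hmain
  have h1 : o ∈ convexHull ℝ ((ext F : Finset V) : Set V) :=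
    subset_convexHull_ext F (Finset.mem_coe.mpr hoF)
  refine convexHull_mono ?_ (htrans _ h1)
  rintro _ ⟨v, hv, rfl⟩
  have := hF (by exact_mod_cast hv)
  rw [mem_biUnion] at this
  obtain ⟨m, hm, hvm⟩ := this
  obtain ⟨q, rfl⟩ := Fin.exists_succAbove_eq (Finset.ne_of_mem_erase hm)
  rw [Finset.mem_coe, mem_biUnion]
  exact ⟨q, mem_univ _, mem_image_of_mem _ hvm⟩

end sign

end Pool.Agent.Lib.MP_f1849d_co
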