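import Mathlib

/-!
Abstract path lemma (backward block words) and a lower bound for multinomial coefficients.
-/

namespace Pool.Agent.Lib.MP_f1849d_co

open Finset

/-- real multinomial coefficient -/
noncomputable def mult {D : ℕ} (c : Fin D → ℕ) : ℝ :=
  ((∑ y, c y).factorial : ℝ) / ∏ y, ((c y).factorial : ℝ)

theorem mult_pos {D : ℕ} (c : Fin D → ℕ) : 0 < mult c := by
  unfold mult
  apply div_pos
  · exact_mod_cast Nat.factorial_pos _
  · exact Finset.prod_pos fun y _ => by exact_mod_cast Nat.factorial_pos _

theorem mult_zero {D : ℕ} : mult (fun _ : Fin D => 0) = 1 := by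
  simp [mult]

/-- removing one letter -/
def decr {D : ℕ} (c : Fin D → ℕ) (y : Fin D) : Fin D → ℕ := Function.update c y (c y - 1)

theorem sum_decr {D : ℕ} (c : Fin D → ℕ) (y : Fin D) (hy : 0 < c y) :
    ∑ q, decr c y q + 1 = ∑ q, c q := by
  unfold decr
  rw [← Finset.add_sum_erase _ _ (mem_univ y), ← Finset.add_sum_erase _ c (mem_univ y)]
  have h : ∑ x ∈ univ.erase y, Function.update c y (c y - 1) x = ∑ x ∈ univ.erase y, c x := by
    apply Finset.sum_congr rfl
    intro x hx
    rw [Function.update_of_ne (Finset.ne_of_mem_erase hx)]
  rw [h, Function.update_self]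
  omega

theorem mult_decr {D : ℕ} (c : Fin D → ℕ) (y : Fin D) (hy : 0 < c y) :
    mult (decr c y) * (∑ q, c q : ℕ) = mult c * (c y : ℝ) := by
  have hs := sum_decr c y hy
  unfold mult
  have h1 : ((∑ q, c q).factorial : ℝ) = ((∑ q, decr c y q).factorial : ℝ) * (∑ q, c q : ℕ) := by
    rw [← hs, Nat.factorial_succ]
    push_cast
    ring
  have h2 : ∏ q, ((c q).factorial : ℝ) = (∏ q, ((decr c y q).factorial : ℝ)) * (c y : ℝ) := by
    unfold decr
    rw [← Finset.mul_prod_erase _ _ (mem_univ y),
      ← Finset.mul_prod_erase _ (fun q => ((Function.update c y (c y - 1) q).factorial : ℝ))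
        (mem_univ y)]
    have h : ∏ x ∈ univ.erase y, ((Function.update c y (c y - 1) x).factorial : ℝ)
        = ∏ x ∈ univ.erase y, ((c x).factorial : ℝ) := by
      apply Finset.prod_congr rfl
      intro x hx
      rw [Function.update_of_ne (Finset.ne_of_mem_erase hx)]
    rw [h, Function.update_self]
    have h3 : ((c y).factorial : ℝ) = (c y : ℝ) * ((c y - 1).factorial : ℝ) := by
      exact_mod_cast (Nat.mul_factorial_pred hy.ne').symm
    rw [h3]; ring
  have hprod : (∏ q, ((decr c y q).factorial : ℝ)) ≠ 0 :=
    (Finset.prod_pos fun q _ => by exact_mod_cast Nat.factorial_pos _).ne'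
  have hcy : (c y : ℝ) ≠ 0 := by exact_mod_cast hy.ne'
  rw [h1, h2]
  field_simp

/-- recursion of the multinomial coefficients -/
theorem mult_rec {D : ℕ} (c : Fin D → ℕ) (hc : 0 < ∑ q, c q) :
    ∑ y ∈ univ.filter (fun y => 0 < c y), mult (decr c y) = mult c := by
  have hn : ((∑ q, c q : ℕ) : ℝ) ≠ 0 := by exact_mod_cast hc.ne'
  have h1 : ∀ y ∈ univ.filter (fun y => 0 < c y),
      mult (decr c y) = mult c * (c y : ℝ) / (∑ q, c q : ℕ) := by
    intro y hy
    rw [eq_div_iff hn]
    exact mult_decr c y (mem_filter.mp hy).2
  rw [Finset.sum_congr rfl h1, ← Finset.sum_div, ← Finset.mul_sum]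
  have h2 : ∑ y ∈ univ.filter (fun y => 0 < c y), (c y : ℝ) = (∑ q, c q : ℕ) := by
    push_cast
    apply Finset.sum_subset (Finset.filter_subset _ _)
    intro y _ hy
    rw [mem_filter] at hy
    push Not at hy
    have := hy (mem_univ y)
    have : c y = 0 := by omega
    rw [this]; simp
  rw [h2]
  field_simp

/-- **Abstract path lemma.** `M` blocks of composition `c`; every backward step changes `R` by a
unit vector, which is the expected one unless the step is flagged; the number of flagged
steps is at most `F`. -/
theorem path_lemma {𝒩 : Type*} {D : ℕ} (pred : Fin D → 𝒩 → 𝒩) (own : Fin D → 𝒩 → Fin D)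
    (R : 𝒩 → Fin D → ℤ) (Fl : 𝒩 → ℤ) (N : 𝒩 → ℝ) (Node Region : 𝒩 → Prop)
    (hN0 : ∀ u, 0 ≤ N u) (hFl0 : ∀ u, 0 ≤ Fl u)
    (hNode : ∀ u, Region u → ∀ y, Node (pred y u))
    (hR : ∀ u, Region u → ∀ y q, R (pred y u) q = R u q - if q = own y u then 1 else 0)
    (hFl : ∀ u, Region u → ∀ y, Fl (pred y u) + (if own y u = y then 0 else 1) ≤ Fl u)
    (hN : ∀ u, Region u → ∑ y, N (pred y u) ≤ N u)
    (c : Fin D → ℕ) (M : ℕ) (F : ℤ) (v : 𝒩) (hv : Node v) (hFv : Fl v ≤ F)
    (hReg : ∀ j, j < M → ∀ u, Node u →
      (∀ q, |R u q - (R v q - j * c q)| ≤ F + ∑ q, (c q : ℤ)) → Region u)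
    (m : ℝ) (hm : ∀ u, Node u → (∀ q, |R u q - (R v q - M * c q)| ≤ F) → m ≤ N u) :
    mult c ^ M * m ≤ N v := by
  classical
  -- the claim with `j` blocks finished, remaining composition `r` in the current block
  have key : ∀ L : ℕ, ∀ j (r : Fin D → ℕ), (∀ q, r q ≤ c q) → ∑ q, r q = L → j + 1 ≤ M → ∀ u,
      Node u →
      (∀ q, |R u q - (R v q - j * c q - (c q - r q))| + Fl u ≤ F) →
      (∀ u', Node u' → (∀ q, |R u' q - (R v q - (j + 1 : ℕ) * c q)| + Fl u' ≤ F) →
        mult c ^ (M - (j + 1)) * m ≤ N u') →
      mult r * (mult c ^ (M - (j + 1)) * m) ≤ N u := by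
    intro L
    induction L with
    | zero =>
      intro j r hr hL hj u hu hinv hend
      have hr0 : ∀ q, r q = 0 := by
        intro q
        have := Finset.sum_eq_zero_iff.mp hL q (mem_univ q)
        exact this
      have hr' : r = fun _ => 0 := funext hr0
      rw [hr', mult_zero, one_mul]
      apply hend u hu
      intro q
      have := hinv q
      rw [hr0 q] at this
      have e : (R v q - j * c q - ((c q : ℤ) - (0 : ℕ)) : ℤ) = R v q - (j + 1 : ℕ) * c q := by
        push_cast; ring
      rw [e] at this
      exact this
    | succ L ih =>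
      intro j r hr hL hj u hu hinv hend
      have hregion : Region u := by
        apply hReg j (by omega) u hu
        intro q
        have h1 := hinv q
        have h2 := hFl0 u
        have h3 : (r q : ℤ) ≤ c q := by exact_mod_cast hr q
        have h4 : (c q : ℤ) ≤ ∑ q, (c q : ℤ) :=
          Finset.single_le_sum (f := fun q => (c q : ℤ)) (fun q _ => by positivity) (mem_univ q)
        have h5 : (0 : ℤ) ≤ r q := by positivity
        rw [abs_le] at *
        have h6 : |R u q - (R v q - j * c q - (c q - r q))| ≤ F := by linarith
        rw [abs_le] at h6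
        constructor
        · linarith [h6.1]
        · linarith [h6.2]
      have hsum := hN u hregion
      have hpos : 0 < ∑ q, r q := by omega
      rw [← mult_rec r hpos, Finset.sum_mul]
      refine le_trans ?_ hsum
      refine le_trans ?_ (Finset.sum_le_sum_of_subset_of_nonneg
        (Finset.filter_subset (fun y => 0 < r y) univ) (fun y _ _ => hN0 _))
      apply Finset.sum_le_sum
      intro y hy
      have hry : 0 < r y := (mem_filter.mp hy).2
      apply ih j (decr r y)
      · intro q
        unfold decr
        by_cases hq : q = y
        · subst hq; rw [Function.update_self]; exact (Nat.sub_le _ _).trans (hr q)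
        · rw [Function.update_of_ne hq]; exact hr q
      · have := sum_decr r y hry
        omega
      · exact hj
      · exact hNode u hregion y
      · intro q
        have h1 := hinv q
        have h2 := hR u hregion y q
        have h3 := hFl u hregion y
        have h4 : ((decr r y q : ℕ) : ℤ) = r q - if q = y then 1 else 0 := by
          unfold decr
          by_cases hq : q = y
          · subst hq
            rw [Function.update_self, if_pos rfl]
            have : 1 ≤ r q := hry
            push_cast [Nat.cast_sub this]
            ring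
          · rw [Function.update_of_ne hq, if_neg hq, sub_zero]
        rw [h2, h4]
        by_cases ho : own y u = y
        · rw [if_pos ho] at h3
          have e : (R u q - if q = own y u then 1 else 0)
              - (R v q - j * c q - (c q - (r q - if q = y then 1 else 0)))
              = R u q - (R v q - j * c q - (c q - r q)) := by
            rw [ho]; ring
          rw [e]
          linarith
        · rw [if_neg ho] at h3
          have h6 : |(R u q - if q = own y u then 1 else 0)
              - (R v q - j * c q - (c q - (r q - if q = y then 1 else 0)))|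
              ≤ |R u q - (R v q - j * c q - (c q - r q))| + 1 := by
            have e : (R u q - if q = own y u then 1 else 0)
                - (R v q - j * c q - (c q - (r q - if q = y then 1 else 0)))
                = (R u q - (R v q - j * c q - (c q - r q)))
                  + ((if q = y then 1 else 0) - if q = own y u then 1 else 0) := by ring
            rw [e]
            refine (abs_add_le _ _).trans ?_
            have : |((if q = y then 1 else 0) - if q = own y u then 1 else 0 : ℤ)| ≤ 1 := by
              split_ifs <;> simp
            linarith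
          linarith
      · exact hend
  -- outer induction on the number of remaining blocks
  have outer : ∀ k j : ℕ, j + k = M → ∀ u, Node u →
      (∀ q, |R u q - (R v q - j * c q)| + Fl u ≤ F) → mult c ^ k * m ≤ N u := by
    intro k
    induction k with
    | zero =>
      intro j hj u hu hinv
      rw [pow_zero, one_mul]
      apply hm u hu
      intro q
      have := hinv q
      have h0 := hFl0 u
      have hjM : j = M := by omega
      rw [← hjM]
      linarith
    | succ k ih =>
      intro j hj u hu hinv
      have hkey := key _ j c (fun q => le_rfl) rfl (by omega) u hu (by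
        intro q
        have := hinv q
        have e : (R v q - j * c q - ((c q : ℤ) - c q) : ℤ) = R v q - j * c q := by ring
        rw [e]; exact this) (by
        intro u' hu' hinv'
        have hk : M - (j + 1) = k := by omega
        rw [hk]
        exact ih (j + 1) (by omega) u' hu' hinv')
      have hk : M - (j + 1) = k := by omega
      rw [hk] at hkey
      calc mult c ^ (k + 1) * m = mult c * (mult c ^ k * m) := by rw [pow_succ]; ring
        _ ≤ N u := hkey
  exact outer M 0 (by omega) v hv (by
    intro q
    simp only [Nat.cast_zero, zero_mul, sub_zero, sub_self, abs_zero, zero_add]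
    exact hFv)

end Pool.Agent.Lib.MP_f1849d_co
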