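import Mathlib
import Pool.Agent.Lib.MP_f1849d_co.PathLemma

/-!
Lower bound for multinomial coefficients near the uniform composition.
-/

namespace Pool.Agent.Lib.MP_f1849d_co

open Finset

theorem mult_eq_multinomial {D : ℕ} (c : Fin D → ℕ) : mult c = (Nat.multinomial univ c : ℝ) := by
  unfold mult
  have hp : (∏ y, ((c y).factorial : ℝ)) ≠ 0 :=
    (Finset.prod_pos fun q _ => by exact_mod_cast Nat.factorial_pos _).ne'
  rw [div_eq_iff hp]
  have := Nat.multinomial_spec (s := (univ : Finset (Fin D))) (f := c)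
  rw [mul_comm]
  exact_mod_cast this.symm

/-- `B! B^k ≤ k! B^B` -/
theorem factorial_mul_pow_le (B k : ℕ) : B.factorial * B ^ k ≤ k.factorial * B ^ B := by
  rcases Nat.le_total B k with h | h
  · obtain ⟨m, rfl⟩ := Nat.exists_eq_add_of_le h
    have h1 : B ^ m ≤ (B + 1).ascFactorial m :=
      (Nat.pow_le_pow_left (Nat.le_succ B) m).trans (Nat.pow_succ_le_ascFactorial (B + 1) m)
    rw [← Nat.factorial_mul_ascFactorial B m, pow_add]
    calc B.factorial * (B ^ B * B ^ m) = B.factorial * B ^ m * B ^ B := by ring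
      _ ≤ B.factorial * (B + 1).ascFactorial m * B ^ B :=
          Nat.mul_le_mul_right _ (Nat.mul_le_mul_left _ h1)
  · obtain ⟨m, rfl⟩ := Nat.exists_eq_add_of_le h
    have h1 : (k + 1).ascFactorial m ≤ (k + m) ^ m := Nat.ascFactorial_le_pow_add k m
    rw [← Nat.factorial_mul_ascFactorial k m, pow_add (k + m) k m]
    calc k.factorial * (k + 1).ascFactorial m * (k + m) ^ k
        ≤ k.factorial * (k + m) ^ m * (k + m) ^ k :=
          Nat.mul_le_mul_right _ (Nat.mul_le_mul_left _ h1)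
      _ = k.factorial * ((k + m) ^ k * (k + m) ^ m) := by ring

/-- the uniform composition maximises the multinomial coefficient -/
theorem mult_le_uniform {D : ℕ} (B : ℕ) (k : Fin D → ℕ) (hk : ∑ y, k y = D * B) :
    mult k ≤ mult (fun _ : Fin D => B) := by
  have hprod : ∏ _y : Fin D, B.factorial ≤ ∏ y, (k y).factorial := by
    rcases Nat.eq_zero_or_pos B with hB | hB
    · subst hB
      rw [mul_zero] at hk
      have : ∀ y, k y = 0 := fun y => Finset.sum_eq_zero_iff.mp hk y (mem_univ y)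
      simp [this]
    · have h1 : ∏ y, (B.factorial * B ^ k y) ≤ ∏ y : Fin D, ((k y).factorial * B ^ B) :=
        Finset.prod_le_prod' fun y _ => factorial_mul_pow_le B (k y)
      rw [Finset.prod_mul_distrib, Finset.prod_mul_distrib, Finset.prod_pow_eq_pow_sum, hk,
        Finset.prod_const (B ^ B), Finset.card_univ, Fintype.card_fin, ← pow_mul,
        Nat.mul_comm B D] at h1
      exact Nat.le_of_mul_le_mul_right h1 (by positivity)
  unfold mult
  have e : ∑ _y : Fin D, B = D * B := by simp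
  rw [hk, e]
  apply div_le_div_of_nonneg_left
  · positivity
  · exact Finset.prod_pos fun q _ => by exact_mod_cast Nat.factorial_pos _
  · exact_mod_cast hprod

theorem pow_le_mult_uniform (D B : ℕ) :
    (D : ℝ) ^ (D * B) ≤ ((D * B + 1 : ℕ) : ℝ) ^ D * mult (fun _ : Fin D => B) := by
  have h1 := Finset.sum_pow_eq_sum_piAntidiag (univ : Finset (Fin D)) (fun _ => (1 : ℝ)) (D * B)
  simp only [Finset.sum_const, Finset.card_univ, Fintype.card_fin, nsmul_eq_mul, mul_one,
    one_pow, Finset.prod_const_one] at h1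
  rw [h1]
  have hcard : (piAntidiag (univ : Finset (Fin D)) (D * B)).card ≤ (D * B + 1) ^ D := by
    have hsub : piAntidiag (univ : Finset (Fin D)) (D * B) ⊆
        Fintype.piFinset (fun _ : Fin D => Finset.range (D * B + 1)) := by
      intro k hk
      rw [mem_piAntidiag] at hk
      rw [Fintype.mem_piFinset]
      intro y
      rw [Finset.mem_range]
      have h3 : k y ≤ ∑ q, k q :=
        Finset.single_le_sum (f := k) (fun q _ => Nat.zero_le _) (mem_univ y)
      have h2 : ∑ q, k q = D * B := hk.1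
      omega
    calc _ ≤ (Fintype.piFinset (fun _ : Fin D => Finset.range (D * B + 1))).card :=
          Finset.card_le_card hsub
      _ = (D * B + 1) ^ D := by simp
  calc ∑ k ∈ piAntidiag (univ : Finset (Fin D)) (D * B), (Nat.multinomial univ k : ℝ)
      ≤ ∑ k ∈ piAntidiag (univ : Finset (Fin D)) (D * B), mult (fun _ : Fin D => B) := by
        apply Finset.sum_le_sum
        intro k hk
        rw [← mult_eq_multinomial]
        exact mult_le_uniform B k (mem_piAntidiag.mp hk).1
    _ = ((piAntidiag (univ : Finset (Fin D)) (D * B)).card : ℝ) * mult (fun _ : Fin D => B) := by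
        rw [Finset.sum_const, nsmul_eq_mul]
    _ ≤ ((D * B + 1 : ℕ) : ℝ) ^ D * mult (fun _ : Fin D => B) := by
        apply mul_le_mul_of_nonneg_right _ (mult_pos _).le
        exact_mod_cast hcard

/-- one factor of the tilt estimate -/
theorem factorial_tilt (B X c : ℕ) (h1 : c ≤ B + X) (h2 : B ≤ c + X) :
    c.factorial * (B - X) ^ (B - c) ≤ B.factorial * (B + X) ^ (c - B) := by
  rcases Nat.le_total B c with h | h
  · obtain ⟨m, rfl⟩ := Nat.exists_eq_add_of_le h
    have e1 : B - (B + m) = 0 := by omega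
    have e2 : B + m - B = m := by omega
    rw [e1, e2, pow_zero, mul_one, ← Nat.factorial_mul_ascFactorial B m]
    apply Nat.mul_le_mul_left
    exact (Nat.ascFactorial_le_pow_add B m).trans (Nat.pow_le_pow_left (by omega) m)
  · obtain ⟨m, rfl⟩ := Nat.exists_eq_add_of_le h
    have e1 : c + m - c = m := by omega
    have e2 : c - (c + m) = 0 := by omega
    rw [e1, e2, pow_zero, mul_one, ← Nat.factorial_mul_ascFactorial c m]
    apply Nat.mul_le_mul_left
    exact (Nat.pow_le_pow_left (by omega) m).trans (Nat.pow_succ_le_ascFactorial (c + 1) m)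

theorem mult_tilt {D : ℕ} (B X : ℕ) (hX : X < B) (c : Fin D → ℕ) (hc : ∑ y, c y = D * B)
    (h1 : ∀ y, c y ≤ B + X) (h2 : ∀ y, B ≤ c y + X) :
    mult (fun _ : Fin D => B) ≤
      mult c * Real.exp (2 * D * X ^ 2 / ((B : ℝ) - X)) := by
  have hBX : (0 : ℝ) < (B : ℝ) - X := by
    have : (X : ℝ) < B := by exact_mod_cast hX
    linarith
  set S := ∑ y, (c y - B) with hS
  have hS' : ∑ y, (B - c y) = S := by
    have e : ∀ y, (c y : ℤ) + ((B - c y : ℕ) : ℤ) = B + ((c y - B : ℕ) : ℤ) := by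
      intro y; omega
    have hsum : ∑ y, ((c y : ℤ) + ((B - c y : ℕ) : ℤ)) = ∑ y : Fin D, ((B : ℤ) + ((c y - B : ℕ) : ℤ)) :=
      Finset.sum_congr rfl fun y _ => e y
    rw [Finset.sum_add_distrib, Finset.sum_add_distrib, Finset.sum_const, Finset.card_univ,
      Fintype.card_fin, nsmul_eq_mul] at hsum
    have hc' : ∑ y, (c y : ℤ) = D * B := by exact_mod_cast hc
    rw [hc'] at hsum
    have : ∑ y, ((B - c y : ℕ) : ℤ) = ∑ y, ((c y - B : ℕ) : ℤ) := by linarith
    exact_mod_cast this
  have hSle : S ≤ D * X := by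
    calc S ≤ ∑ _y : Fin D, X := Finset.sum_le_sum fun y _ => by have := h1 y; omega
      _ = D * X := by simp
  -- product of the factors
  have hprod : (∏ y, (c y).factorial) * (B - X) ^ S ≤ B.factorial ^ D * (B + X) ^ S := by
    have h := Finset.prod_le_prod' (s := (univ : Finset (Fin D)))
      fun y _ => factorial_tilt B X (c y) (h1 y) (h2 y)
    rw [Finset.prod_mul_distrib, Finset.prod_mul_distrib, Finset.prod_pow_eq_pow_sum,
      Finset.prod_pow_eq_pow_sum, hS', ← hS, Finset.prod_const, Finset.card_univ,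
      Fintype.card_fin] at h
    exact h
  have hprodR : (∏ y, ((c y).factorial : ℝ)) * ((B : ℝ) - X) ^ S
      ≤ (B.factorial : ℝ) ^ D * ((B : ℝ) + X) ^ S := by
    have : (((∏ y, (c y).factorial) * (B - X) ^ S : ℕ) : ℝ)
        ≤ ((B.factorial ^ D * (B + X) ^ S : ℕ) : ℝ) := by exact_mod_cast hprod
    push_cast [Nat.cast_sub hX.le] at this
    exact this
  -- ratio
  have hratio : ((B : ℝ) + X) ^ S ≤ ((B : ℝ) - X) ^ S * Real.exp (2 * D * X ^ 2 / ((B : ℝ) - X)) := by
    have h3 : (B : ℝ) + X ≤ ((B : ℝ) - X) * Real.exp (2 * X / ((B : ℝ) - X)) := by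
      have h4 := Real.add_one_le_exp (2 * (X : ℝ) / ((B : ℝ) - X))
      calc (B : ℝ) + X = ((B : ℝ) - X) * (2 * X / ((B : ℝ) - X) + 1) := by field_simp; ring
        _ ≤ _ := mul_le_mul_of_nonneg_left h4 hBX.le
    calc ((B : ℝ) + X) ^ S ≤ (((B : ℝ) - X) * Real.exp (2 * X / ((B : ℝ) - X))) ^ S :=
          pow_le_pow_left₀ (by positivity) h3 S
      _ = ((B : ℝ) - X) ^ S * Real.exp (S * (2 * X / ((B : ℝ) - X))) := by
          rw [mul_pow, ← Real.exp_nat_mul]
      _ ≤ _ := by
          apply mul_le_mul_of_nonneg_left _ (by positivity)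
          apply Real.exp_le_exp.mpr
          have h5 : (S : ℝ) ≤ D * X := by exact_mod_cast hSle
          have h6 : (0 : ℝ) ≤ 2 * X / ((B : ℝ) - X) := by positivity
          calc (S : ℝ) * (2 * X / ((B : ℝ) - X)) ≤ (D * X) * (2 * X / ((B : ℝ) - X)) :=
                mul_le_mul_of_nonneg_right h5 h6
            _ = 2 * D * X ^ 2 / ((B : ℝ) - X) := by ring
  have hfac : (∏ y, ((c y).factorial : ℝ))
      ≤ (B.factorial : ℝ) ^ D * Real.exp (2 * D * X ^ 2 / ((B : ℝ) - X)) := by
    have hpos : (0 : ℝ) < ((B : ℝ) - X) ^ S := by positivity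
    have h7 : (∏ y, ((c y).factorial : ℝ)) * ((B : ℝ) - X) ^ S
        ≤ ((B.factorial : ℝ) ^ D * Real.exp (2 * D * X ^ 2 / ((B : ℝ) - X))) * ((B : ℝ) - X) ^ S := by
      calc _ ≤ (B.factorial : ℝ) ^ D * ((B : ℝ) + X) ^ S := hprodR
        _ ≤ (B.factorial : ℝ) ^ D *
            (((B : ℝ) - X) ^ S * Real.exp (2 * D * X ^ 2 / ((B : ℝ) - X))) :=
            mul_le_mul_of_nonneg_left hratio (by positivity)
        _ = _ := by ring
    exact le_of_mul_le_mul_right h7 hpos
  unfold mult
  have e : ∑ _y : Fin D, B = D * B := by simp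
  rw [hc, e, Finset.prod_const, Finset.card_univ, Fintype.card_fin]
  have hP : (0 : ℝ) < ∏ y, ((c y).factorial : ℝ) :=
    Finset.prod_pos fun q _ => by exact_mod_cast Nat.factorial_pos _
  rw [div_mul_eq_mul_div, div_le_div_iff₀ (by positivity) hP]
  calc ((D * B).factorial : ℝ) * ∏ y, ((c y).factorial : ℝ)
      ≤ ((D * B).factorial : ℝ) *
        ((B.factorial : ℝ) ^ D * Real.exp (2 * D * X ^ 2 / ((B : ℝ) - X))) :=
        mul_le_mul_of_nonneg_left hfac (by positivity)
    _ = ((D * B).factorial : ℝ) * Real.exp (2 * D * X ^ 2 / ((B : ℝ) - X)) *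
        (B.factorial : ℝ) ^ D := by ring

/-- **Lower bound for multinomial coefficients near the uniform composition.** -/
theorem pow_le_mult {D : ℕ} (B X : ℕ) (hX : X < B) (c : Fin D → ℕ) (hc : ∑ y, c y = D * B)
    (h1 : ∀ y, c y ≤ B + X) (h2 : ∀ y, B ≤ c y + X) :
    (D : ℝ) ^ (D * B) ≤ ((D * B + 1 : ℕ) : ℝ) ^ D *
      Real.exp (2 * D * X ^ 2 / ((B : ℝ) - X)) * mult c := by
  calc (D : ℝ) ^ (D * B) ≤ ((D * B + 1 : ℕ) : ℝ) ^ D * mult (fun _ : Fin D => B) :=
        pow_le_mult_uniform D B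
    _ ≤ ((D * B + 1 : ℕ) : ℝ) ^ D * (mult c * Real.exp (2 * D * X ^ 2 / ((B : ℝ) - X))) :=
        mul_le_mul_of_nonneg_left (mult_tilt B X hX c hc h1 h2) (by positivity)
    _ = _ := by ring

end Pool.Agent.Lib.MP_f1849d_co
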