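import Mathlib

/-!
# One step inequality, the real-variable part

`K` is the set of letters whose pointer has been harvested, `a l` the increment of the potential
for the other letters; `β` is the extra mass (`e^{-2}` at a bad visit, `0` otherwise).
-/

namespace Pool.Agent.Lib.MP_f1849d_co

open Finset

/-- The one-step inequality in real variables. -/
theorem one_step_real {D : ℕ} (η β : ℝ) (hη2 : Real.exp η ≤ 2)
    (K : Finset (Fin D)) (a : Fin D → ℝ) (hβ : 0 ≤ β) (hK : K ≠ univ) (hη0 : 0 ≤ η)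
    (h : ∑ l ∈ Kᶜ, Real.exp (a l) + β ≤ D * Real.exp η) :
    ∑ l ∈ Kᶜ, a l ≤ K.card + D * η - β / (2 * D) := by
  classical
  have hne : (Kᶜ).Nonempty := by
    rw [Finset.nonempty_iff_ne_empty]
    intro h0
    exact hK (by rwa [Finset.compl_eq_empty_iff] at h0)
  have hc1 : 1 ≤ (Kᶜ).card := hne.card_pos
  have hcard : K.card + (Kᶜ).card = D := by
    rw [Finset.card_add_card_compl, Fintype.card_fin]
  have hD : 1 ≤ D := by omega
  have hDr : (1 : ℝ) ≤ D := by exact_mod_cast hD
  have hcr : (K.card : ℝ) + ((Kᶜ).card : ℝ) = D := by exact_mod_cast hcard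
  set c : ℝ := ((Kᶜ).card : ℝ) with hc
  have hc1r : 1 ≤ c := by
    rw [hc]; exact_mod_cast hc1
  have hcD : c ≤ D := by
    have : (0 : ℝ) ≤ K.card := by positivity
    linarith
  -- `ρ = D e^η / c`
  set ρ : ℝ := D * Real.exp η / c with hρ
  have hexp1 : 1 ≤ Real.exp η := by
    rw [← Real.exp_zero]; exact Real.exp_le_exp.mpr hη0
  have hρpos : 0 < ρ := by
    rw [hρ]; positivity
  have hρ1 : 1 ≤ ρ := by
    rw [hρ, le_div_iff₀ (by linarith)]
    nlinarith
  have hρD : ρ ≤ 2 * D := by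
    rw [hρ, div_le_iff₀ (by linarith)]
    nlinarith
  -- tangent line inequality
  have htan : ∀ x : ℝ, ρ * (1 + x - Real.log ρ) ≤ Real.exp x := by
    intro x
    have h1 := Real.add_one_le_exp (x - Real.log ρ)
    have h2 : Real.exp x = ρ * Real.exp (x - Real.log ρ) := by
      rw [Real.exp_sub, Real.exp_log hρpos]
      field_simp
    rw [h2]
    apply mul_le_mul_of_nonneg_left _ hρpos.le
    linarith
  have hsum : ∑ l ∈ Kᶜ, ρ * (1 + a l - Real.log ρ) ≤ ∑ l ∈ Kᶜ, Real.exp (a l) :=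
    Finset.sum_le_sum (fun l _ => htan (a l))
  have hsum2 : ∑ l ∈ Kᶜ, ρ * (1 + a l - Real.log ρ)
      = ρ * (c * (1 - Real.log ρ) + ∑ l ∈ Kᶜ, a l) := by
    rw [← Finset.mul_sum]
    congr 1
    rw [show (∑ l ∈ Kᶜ, (1 + a l - Real.log ρ)) = ∑ l ∈ Kᶜ, ((1 - Real.log ρ) + a l) from
      Finset.sum_congr rfl (fun l _ => by ring)]
    rw [Finset.sum_add_distrib, Finset.sum_const, nsmul_eq_mul]
  rw [hsum2] at hsum
  have hρc : ρ * c = D * Real.exp η := by
    rw [hρ]; field_simp
  -- main inequality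
  have hmain : ρ * (∑ l ∈ Kᶜ, a l) ≤ ρ * (c * Real.log ρ) - β := by
    have : ρ * (c * (1 - Real.log ρ) + ∑ l ∈ Kᶜ, a l)
        = ρ * c - ρ * (c * Real.log ρ) + ρ * (∑ l ∈ Kᶜ, a l) := by ring
    rw [this, hρc] at hsum
    linarith
  have hmain2 : ∑ l ∈ Kᶜ, a l ≤ c * Real.log ρ - β / ρ := by
    have : ρ * (∑ l ∈ Kᶜ, a l) ≤ ρ * (c * Real.log ρ - β / ρ) := by
      have e : ρ * (c * Real.log ρ - β / ρ) = ρ * (c * Real.log ρ) - β := by
        field_simp
      rw [e]; exact hmain
    exact le_of_mul_le_mul_left this hρpos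
  have hlog : Real.log ρ = Real.log (D / c) + η := by
    rw [hρ, show (D : ℝ) * Real.exp η / c = (D / c) * Real.exp η by ring,
      Real.log_mul (by positivity) (by positivity), Real.log_exp]
  have hlog2 : Real.log ((D : ℝ) / c) ≤ D / c - 1 :=
    Real.log_le_sub_one_of_pos (by positivity)
  have hclog : c * Real.log ρ ≤ K.card + D * η := by
    rw [hlog]
    have h1 : c * Real.log ((D : ℝ) / c) ≤ c * (D / c - 1) :=
      mul_le_mul_of_nonneg_left hlog2 (by linarith)
    have h2 : c * ((D : ℝ) / c - 1) = D - c := by field_simp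
    have h3 : c * η ≤ D * η := mul_le_mul_of_nonneg_right hcD hη0
    have h4 : (D : ℝ) - c = K.card := by linarith
    nlinarith
  have hβρ : β / (2 * D) ≤ β / ρ := by
    apply div_le_div_of_nonneg_left hβ hρpos hρD
  linarith

end Pool.Agent.Lib.MP_f1849d_co
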